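import Pool.Agent.N728.QG.Def2
import Pool.Agent.N99.QL.QB

set_option autoImplicit false

/-! Project QH (helper728), part SHB (helper73): the sum over pairs of divisors for the shift. First part: the
expansion of the square. -/

namespace Pool.Agent.N73.QH

open Finset MeasureTheory Pool.Agent.N728.QL Pool.Agent.N728.QG
open Pool.Agent.N99.QL (kk)

/-- the hypotheses on `g` -/
structure GB (g : ℝ → ℝ) (L s0 S : ℝ) : Prop where
  S1 : 0 ≤ S
  L1 : 1 ≤ L
  bd : ∀ s, |g s| ≤ 2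
  lip : ∀ s s', |g s - g s'| ≤ L * |s - s'|
  supp : ∀ s, ¬ (s0 ≤ s ∧ s ≤ s0 + S) → g s = 0

namespace GB

variable {g : ℝ → ℝ} {L s0 S : ℝ} (h : GB g L s0 S)
include h

lemma cont : Continuous g := by
  have hL : 0 ≤ L := by linarith [h.L1]
  have : LipschitzWith ⟨L, hL⟩ g := LipschitzWith.of_dist_le_mul fun x y => by
    rw [Real.dist_eq, Real.dist_eq]
    exact h.lip x y
  exact this.continuous

lemma eq_int (f : ℝ → ℝ) : ∫ s : ℝ, g s * f s = ∫ s in s0..(s0 + S), g s * f s := by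
  rw [intervalIntegral.integral_of_le (by linarith [h.S1]), ← integral_Icc_eq_integral_Ioc]
  symm
  refine setIntegral_eq_integral_of_forall_compl_eq_zero fun s hs => ?_
  rw [h.supp s (fun h1 => hs ⟨h1.1, h1.2⟩), zero_mul]

lemma kk_bd (τ : ℝ) : |kk g τ| ≤ 4 * S := by
  unfold kk
  rw [h.eq_int]
  have h1 : ∀ x ∈ Set.uIoc s0 (s0 + S), ‖g x * g (x + τ)‖ ≤ 4 := by
    intro x _
    rw [norm_mul, Real.norm_eq_abs, Real.norm_eq_abs]
    have := h.bd x
    have := h.bd (x + τ)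
    nlinarith [abs_nonneg (g x), abs_nonneg (g (x + τ))]
  have h2 := intervalIntegral.norm_integral_le_of_norm_le_const h1
  rw [Real.norm_eq_abs] at h2
  refine h2.trans ?_
  rw [show s0 + S - s0 = S by ring, abs_of_nonneg h.S1]

lemma kk_lip (τ τ' : ℝ) : |kk g τ - kk g τ'| ≤ 2 * S * L * |τ - τ'| := by
  unfold kk
  rw [h.eq_int, h.eq_int]
  have hc := h.cont
  have i1 : ∀ t : ℝ, IntervalIntegrable (fun s => g s * g (s + t)) volume s0 (s0 + S) :=
    fun t => (hc.mul (hc.comp (continuous_id.add continuous_const))).intervalIntegrable _ _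
  rw [← intervalIntegral.integral_sub (i1 τ) (i1 τ')]
  have h1 : ∀ x ∈ Set.uIoc s0 (s0 + S), ‖g x * g (x + τ) - g x * g (x + τ')‖ ≤
      2 * L * |τ - τ'| := by
    intro x _
    rw [← mul_sub, norm_mul, Real.norm_eq_abs, Real.norm_eq_abs]
    have e1 := h.bd x
    have e2 := h.lip (x + τ) (x + τ')
    rw [show x + τ - (x + τ') = τ - τ' by ring] at e2
    calc |g x| * |g (x + τ) - g (x + τ')| ≤ 2 * (L * |τ - τ'|) :=
          mul_le_mul e1 e2 (abs_nonneg _) (by norm_num)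
      _ = 2 * L * |τ - τ'| := by ring
  have h2 := intervalIntegral.norm_integral_le_of_norm_le_const h1
  rw [Real.norm_eq_abs] at h2
  refine h2.trans (le_of_eq ?_)
  rw [show s0 + S - s0 = S by ring, abs_of_nonneg h.S1]
  ring

lemma i2 (a b : ℝ) : Integrable (fun s => g (s - a) * g (s - b)) := by
  have hc := h.cont
  have c1 : Continuous (fun s => g (s - a) * g (s - b)) :=
    (hc.comp (continuous_id.sub continuous_const)).mul (hc.comp (continuous_id.sub continuous_const))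
  refine c1.integrable_of_hasCompactSupport ?_
  refine HasCompactSupport.of_support_subset_isCompact
    (isCompact_Icc (a := s0 + a) (b := s0 + S + a)) ?_
  intro s hs
  by_contra h1
  refine hs ?_
  change g (s - a) * g (s - b) = 0
  rw [h.supp (s - a) fun h2 => h1 ⟨by linarith [h2.1], by linarith [h2.2]⟩, zero_mul]

lemma xy_i (D1 D2 : Finset ℕ) (a b : ℕ → ℝ) :
    Integrable (fun s : ℝ => (∑ m ∈ D1, g (s - a m)) * ∑ m ∈ D2, g (s - b m)) := by
  simp_rw [Finset.sum_mul_sum]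
  exact integrable_finsetSum _ fun m _ => integrable_finsetSum _ fun m' _ => h.i2 _ _

lemma xy_int (D1 D2 : Finset ℕ) (a b : ℕ → ℝ) :
    ∫ s : ℝ, (∑ m ∈ D1, g (s - a m)) * (∑ m ∈ D2, g (s - b m)) =
    ∑ m ∈ D1, ∑ m' ∈ D2, kk g (a m - b m') := by
  simp_rw [Finset.sum_mul_sum]
  rw [integral_finsetSum _ fun m _ => integrable_finsetSum _ fun m' _ => h.i2 _ _]
  refine Finset.sum_congr rfl fun m _ => ?_
  rw [integral_finsetSum _ fun m' _ => h.i2 _ _]
  refine Finset.sum_congr rfl fun m' _ => ?_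
  unfold kk
  have e2 := integral_sub_right_eq_self (μ := (volume : Measure ℝ))
    (fun s => g s * g (s + (a m - b m'))) (a m)
  rw [← e2]
  refine integral_congr_ae (Filter.Eventually.of_forall fun s => ?_)
  simp only
  rw [show s - a m + (a m - b m') = s - b m' by ring]

lemma sq_int (D1 D2 : Finset ℕ) (a b : ℕ → ℝ) :
    ∫ s : ℝ, (∑ m ∈ D1, g (s - a m) - ∑ m ∈ D2, g (s - b m)) ^ 2 =
    ∑ m ∈ D1, ∑ m' ∈ D1, kk g (a m - a m') + ∑ m ∈ D2, ∑ m' ∈ D2, kk g (b m - b m') -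
      2 * ∑ m ∈ D1, ∑ m' ∈ D2, kk g (a m - b m') := by
  rw [← h.xy_int D1 D1 a a, ← h.xy_int D2 D2 b b, ← h.xy_int D1 D2 a b,
    ← integral_const_mul, ← integral_add (h.xy_i _ _ _ _) (h.xy_i _ _ _ _), ← integral_sub]
  · refine integral_congr_ae (Filter.Eventually.of_forall fun s => ?_)
    simp only
    ring
  · exact (h.xy_i _ _ _ _).add (h.xy_i _ _ _ _)
  · exact (h.xy_i _ _ _ _).const_mul _

end GB

/-- the kernel -/
noncomputable def TR (k : ℝ → ℝ) (ρ : ℝ) (q α R : ℕ) (σ : ℝ) (m m' : ℕ) : ℝ :=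
  if jw ρ m' = jw ρ m + R ∧ m ≡ α [MOD q] ∧ m' ≡ α [MOD q] then
    k (Real.log m' - Real.log m - σ) else 0

/-- sum over the windows -/
lemma sumW {q α M : ℕ} (φ ψ : ℕ → ℕ) (W : Finset ℕ) (hW : ∀ m ∈ M.divisors, φ m ∈ W)
    (F : ℕ → ℕ → ℝ) :
    ∑ j ∈ W, ∑ m ∈ M.divisors.filter (fun m => φ m = j ∧ m ≡ α [MOD q]),
      ∑ m' ∈ M.divisors.filter (fun m => ψ m = j ∧ m ≡ α [MOD q]), F m m' =
    ∑ m ∈ M.divisors, ∑ m' ∈ M.divisors,
      if φ m = ψ m' ∧ m' ≡ α [MOD q] ∧ m ≡ α [MOD q] then F m m' else 0 := by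
  simp only [Finset.sum_filter]
  rw [Finset.sum_comm]
  refine Finset.sum_congr rfl fun m hm => ?_
  rw [Finset.sum_eq_single_of_mem (φ m) (hW m hm)]
  · by_cases hα : m ≡ α [MOD q]
    · rw [if_pos ⟨rfl, hα⟩]
      refine Finset.sum_congr rfl fun m' _ => ?_
      by_cases h1 : ψ m' = φ m ∧ m' ≡ α [MOD q]
      · rw [if_pos h1, if_pos ⟨h1.1.symm, h1.2, hα⟩]
      · rw [if_neg h1, if_neg fun h2 => h1 ⟨h2.1.symm, h2.2.1⟩]
    · rw [if_neg fun h1 => hα h1.2]
      symm
      exact Finset.sum_eq_zero fun m' _ => if_neg fun h2 => hα h2.2.2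
  · intro j _ hj
    exact if_neg fun h1 => hj h1.1.symm

/-- the identity -/
lemma windowsR {g : ℝ → ℝ} {L s0 S : ℝ} (h : GB g L s0 S) (ρ : ℝ) (q α R M : ℕ) (σ : ℝ) :
    ∑ j ∈ WnR ρ M R, (1 / (Nat.totient M : ℝ)) *
      ∫ s : ℝ, (∑ m ∈ (Dv ρ M j).filter (fun m => m ≡ α [MOD q]), g (s - Real.log m) -
        ∑ m ∈ (DvR ρ M j R).filter (fun m => m ≡ α [MOD q]), g (s - (Real.log m + σ))) ^ 2 =
    (1 / (Nat.totient M : ℝ)) * ∑ m ∈ M.divisors, ∑ m' ∈ M.divisors,
      2 * (TR (kk g) ρ q α 0 0 m m' - TR (kk g) ρ q α R σ m m') := by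
  rw [← Finset.mul_sum]
  congr 1
  have e1 : ∀ j, (Dv ρ M j).filter (fun m => m ≡ α [MOD q]) =
      M.divisors.filter (fun m => jw ρ m = j ∧ m ≡ α [MOD q]) := by
    intro j
    unfold Dv
    rw [Finset.filter_filter]
  have e2 : ∀ j, (DvR ρ M j R).filter (fun m => m ≡ α [MOD q]) =
      M.divisors.filter (fun m => jw ρ m + R = j ∧ m ≡ α [MOD q]) := by
    intro j
    unfold DvR
    split_ifs with h1
    · unfold Dv
      rw [Finset.filter_filter]
      refine Finset.filter_congr fun m _ => ?_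
      constructor
      · rintro ⟨h2, h3⟩
        exact ⟨by omega, h3⟩
      · rintro ⟨h2, h3⟩
        exact ⟨by omega, h3⟩
    · rw [Finset.filter_empty]
      symm
      refine Finset.filter_eq_empty_iff.2 fun m _ h2 => ?_
      omega
  have hW1 : ∀ m ∈ M.divisors, jw ρ m ∈ WnR ρ M R := fun m hm => by
    unfold WnR Wn
    exact mem_union_left _ (mem_image_of_mem _ hm)
  have hW2 : ∀ m ∈ M.divisors, jw ρ m + R ∈ WnR ρ M R := fun m hm => by
    unfold WnR Wn
    exact mem_union_right _ (mem_image_of_mem (fun j => j + R) (mem_image_of_mem _ hm))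
  simp_rw [e1, e2, h.sq_int _ _ (fun m => Real.log m) (fun m => Real.log m + σ)]
  rw [Finset.sum_sub_distrib, Finset.sum_add_distrib, ← Finset.mul_sum,
    sumW (jw ρ) (jw ρ) _ hW1, sumW (fun m => jw ρ m + R) (fun m => jw ρ m + R) _ hW2,
    sumW (jw ρ) (fun m => jw ρ m + R) _ hW1]
  have t1 : ∑ m ∈ M.divisors, ∑ m' ∈ M.divisors,
      (if jw ρ m = jw ρ m' ∧ m' ≡ α [MOD q] ∧ m ≡ α [MOD q] then
        kk g (Real.log m - Real.log m') else 0) =
      ∑ m ∈ M.divisors, ∑ m' ∈ M.divisors, TR (kk g) ρ q α 0 0 m m' := by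
    rw [Finset.sum_comm]
    refine Finset.sum_congr rfl fun m _ => Finset.sum_congr rfl fun m' _ => ?_
    unfold TR
    simp only [add_zero, sub_zero]
  have t2 : ∑ m ∈ M.divisors, ∑ m' ∈ M.divisors,
      (if jw ρ m + R = jw ρ m' + R ∧ m' ≡ α [MOD q] ∧ m ≡ α [MOD q] then
        kk g (Real.log m + σ - (Real.log m' + σ)) else 0) =
      ∑ m ∈ M.divisors, ∑ m' ∈ M.divisors, TR (kk g) ρ q α 0 0 m m' := by
    rw [← t1]
    refine Finset.sum_congr rfl fun m _ => Finset.sum_congr rfl fun m' _ => ?_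
    simp only [add_left_inj, add_sub_add_right_eq_sub]
  have t3 : ∑ m ∈ M.divisors, ∑ m' ∈ M.divisors,
      (if jw ρ m = jw ρ m' + R ∧ m' ≡ α [MOD q] ∧ m ≡ α [MOD q] then
        kk g (Real.log m - (Real.log m' + σ)) else 0) =
      ∑ m ∈ M.divisors, ∑ m' ∈ M.divisors, TR (kk g) ρ q α R σ m m' := by
    rw [Finset.sum_comm]
    refine Finset.sum_congr rfl fun m _ => Finset.sum_congr rfl fun m' _ => ?_
    unfold TR
    simp only [sub_add_eq_sub_sub]
  rw [t1, t2, t3]
  simp only [← Finset.mul_sum, Finset.sum_sub_distrib]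
  ring

end Pool.Agent.N73.QH

/-! Project QH (helper728), part SHB (helper73). Second part: the sums over pairs of divisors for an abstract kernel. The
argument of `Pool.Agent.N99.QL.QB` (helper99) and `Pool.Agent.N769.QG.QB` (helper769). -/

namespace Pool.Agent.N73.QH

open Finset MeasureTheory Pool.Agent.N728.QL Pool.Agent.N728.QG Pool.Agent.N99.QL

/-- the hypotheses on an abstract kernel -/
structure AK (T : ℕ → ℕ → ℝ) (w y : ℕ) (M E : ℝ) (G : ℕ → ℕ → ℝ) : Prop where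
  M0 : 0 ≤ M
  E0 : 0 ≤ E
  G0 : ∀ m n, 0 ≤ G m n
  bd : ∀ m m', |T m m'| ≤ M
  z1 : ∀ d m, d ∣ PP w y → m ∣ PP w y → m ≠ 1 → T d (d * m) = 0
  z2 : ∀ d m, d ∣ PP w y → m ∣ PP w y → m ≠ 1 → T (d * m) d = 0
  inner : ∀ d m₁ n, d * m₁ * n ∣ PP w y → m₁ ≠ 1 →
    |∑ p ∈ (Ioc w y).filter Nat.Prime, Real.log p / (p * Real.log ((n * p : ℕ) : ℝ)) *
      T (d * m₁) (d * (n * p))| ≤ G m₁ n + E

section

variable {T : ℕ → ℕ → ℝ} {w y : ℕ} {M E : ℝ} {G : ℕ → ℕ → ℝ} (h : AK T w y M E G)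
include h

/-- the sum over the primes which do not divide `d m₁ n` -/
lemma inner_bdT (hw : 16 ≤ w) {d m₁ n : ℕ} (hN : d * m₁ * n ∣ PP w y) (hm : m₁ ≠ 1) :
    |∑ p ∈ ((Ioc w y).filter Nat.Prime).filter (fun p => d * m₁ * n * p ∣ PP w y),
      Real.log p / (p * Real.log ((n * p : ℕ) : ℝ)) * T (d * m₁) (d * (n * p))| ≤
      G m₁ n + E +
      M / Real.log w * ∑ p ∈ ((Ioc w y).filter Nat.Prime).filter (fun p => p ∣ d * m₁ * n),
        Real.log p / p := by
  classical
  have h1 := h.inner d m₁ n hN hm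
  have hM := h.M0
  have hlw : 1 ≤ Real.log w := one_le_log hw
  have hn : n ∣ PP w y := (Dvd.intro_left _ rfl).trans hN
  have n0 := D_pos hn
  have e1 : ((Ioc w y).filter Nat.Prime).filter (fun p => d * m₁ * n * p ∣ PP w y) =
      ((Ioc w y).filter Nat.Prime).filter (fun p => ¬ p ∣ d * m₁ * n) := by
    refine Finset.filter_congr fun p hp => ?_
    rw [mem_filter, mem_Ioc] at hp
    constructor
    · intro h2 h3
      have h4 := D_cop h2
      exact hp.2.one_lt.ne' (Nat.Coprime.eq_one_of_dvd h4.symm h3)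
    · intro h2
      refine D_mul hN (prime_D hp.2 hp.1.1 hp.1.2) ?_
      exact ((Nat.Prime.coprime_iff_not_dvd hp.2).2 h2).symm
  rw [e1]
  have e2 := Finset.sum_filter_add_sum_filter_not ((Ioc w y).filter Nat.Prime)
    (fun p => p ∣ d * m₁ * n) (fun p => Real.log p / (p * Real.log ((n * p : ℕ) : ℝ)) *
      T (d * m₁) (d * (n * p)))
  have e3 : |∑ p ∈ ((Ioc w y).filter Nat.Prime).filter (fun p => p ∣ d * m₁ * n),
      Real.log p / (p * Real.log ((n * p : ℕ) : ℝ)) * T (d * m₁) (d * (n * p))| ≤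
      M / Real.log w * ∑ p ∈ ((Ioc w y).filter Nat.Prime).filter (fun p => p ∣ d * m₁ * n),
        Real.log p / p := by
    refine (Finset.abs_sum_le_sum_abs _ _).trans ?_
    rw [Finset.mul_sum]
    refine Finset.sum_le_sum fun p hp => ?_
    rw [mem_filter, mem_filter, mem_Ioc] at hp
    have pR : (0 : ℝ) < p := by exact_mod_cast hp.1.2.pos
    have hlp : 0 ≤ Real.log p := Real.log_nonneg (by exact_mod_cast hp.1.2.one_lt.le)
    have hwp : Real.log w ≤ Real.log ((n * p : ℕ) : ℝ) := by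
      refine Real.log_le_log (by exact_mod_cast (by omega : 0 < w)) ?_
      exact_mod_cast (by nlinarith [hp.1.1.1] : w ≤ n * p)
    have hl0 : 0 < Real.log ((n * p : ℕ) : ℝ) := by linarith
    rw [abs_mul, abs_of_nonneg (by positivity)]
    have h2 := h.bd (d * m₁) (d * (n * p))
    calc Real.log p / (p * Real.log ((n * p : ℕ) : ℝ)) * |T (d * m₁) (d * (n * p))|
        ≤ Real.log p / (p * Real.log w) * M := by
          refine mul_le_mul ?_ h2 (abs_nonneg _) (by positivity)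
          gcongr
      _ = M / Real.log w * (Real.log p / p) := by
          field_simp
  have e4 : ∑ p ∈ ((Ioc w y).filter Nat.Prime).filter (fun p => ¬ p ∣ d * m₁ * n),
      Real.log p / (p * Real.log ((n * p : ℕ) : ℝ)) * T (d * m₁) (d * (n * p)) =
      ∑ p ∈ (Ioc w y).filter Nat.Prime, Real.log p / (p * Real.log ((n * p : ℕ) : ℝ)) *
      T (d * m₁) (d * (n * p)) -
      ∑ p ∈ ((Ioc w y).filter Nat.Prime).filter (fun p => p ∣ d * m₁ * n),
      Real.log p / (p * Real.log ((n * p : ℕ) : ℝ)) * T (d * m₁) (d * (n * p)) := by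
    linarith
  rw [e4]
  refine (abs_sub _ _).trans ?_
  linarith

/-- the row `m₁ = 1` -/
lemma row1T {d : ℕ} (hd : d ∣ PP w y) :
    |∑ m₂ ∈ (PP w y).divisors, if d * 1 * m₂ ∣ PP w y then
      T (d * 1) (d * m₂) / ((d * 1 * m₂ : ℕ) : ℝ) else 0| ≤ M * (1 / (d : ℝ)) := by
  have h1 : (1 : ℕ) ∈ (PP w y).divisors := mD.2 (one_dvd _)
  have dR : (0 : ℝ) < d := by exact_mod_cast D_pos hd
  rw [Finset.sum_eq_single_of_mem 1 h1]
  · rw [mul_one, mul_one, if_pos hd, abs_div, abs_of_pos dR]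
    have := h.bd d d
    rw [div_le_iff₀ dR]
    calc |T d d| ≤ M := this
      _ = M * (1 / (d : ℝ)) * d := by field_simp
  · intro m hm hm1
    rw [mD] at hm
    rw [mul_one, h.z1 d m hd hm hm1, zero_div, ite_self]

/-- the rows `m₁ ≠ 1` -/
lemma row2T (hw : 16 ≤ w) {d m₁ : ℕ} (hd : d ∣ PP w y) (hm1 : m₁ ∣ PP w y) (hm : m₁ ≠ 1) :
    |∑ m₂ ∈ (PP w y).divisors, if d * m₁ * m₂ ∣ PP w y then
      T (d * m₁) (d * m₂) / ((d * m₁ * m₂ : ℕ) : ℝ) else 0| ≤
    ∑ n ∈ (PP w y).divisors, 1 / (d : ℝ) * (1 / (m₁ : ℝ)) * (1 / (n : ℝ)) *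
      (G m₁ n + E + M / Real.log w * (RR w y d + RR w y m₁ + RR w y n)) := by
  classical
  have hM := h.M0
  have hlw : 1 ≤ Real.log w := one_le_log hw
  have dR : (0 : ℝ) < d := by exact_mod_cast D_pos hd
  have mR : (0 : ℝ) < m₁ := by exact_mod_cast D_pos hm1
  have hm1w : w < m₁ := D_gt hm1 hm
  have hlm : 0 < Real.log m₁ := Real.log_pos (by exact_mod_cast (by omega : 1 < m₁))
  have hB : ∀ n : ℕ, 0 ≤ G m₁ n + E + M / Real.log w * (RR w y d + RR w y m₁ + RR w y n) := by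
    intro n
    have h0 := h.G0 m₁ n
    have h1 := h.E0
    have h2 := RR_nonneg w y d
    have h3 := RR_nonneg w y m₁
    have h4 := RR_nonneg w y n
    positivity
  rw [← Finset.sum_filter]
  have e1 : ∑ m ∈ (PP w y).divisors.filter (fun m => d * m₁ * m ∣ PP w y),
      T (d * m₁) (d * m) / ((d * m₁ * m : ℕ) : ℝ) =
      1 / (d : ℝ) * (1 / (m₁ : ℝ)) *
      ∑ m ∈ (PP w y).divisors.filter (fun m => d * m₁ * m ∣ PP w y), ∑ p ∈ m.primeFactors,
        Real.log p / (m * Real.log m) * T (d * m₁) (d * m) := by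
    rw [Finset.mul_sum]
    refine Finset.sum_congr rfl fun m hmm => ?_
    rw [mem_filter, mD] at hmm
    have mmR : (0 : ℝ) < m := by exact_mod_cast D_pos hmm.1
    by_cases h1 : m = 1
    · subst h1
      have h3 := h.z2 d m₁ hd hm1 hm
      rw [mul_one, mul_one, h3]
      simp
    · have h2 := D_gt hmm.1 h1
      have hlmm : 0 < Real.log m := Real.log_pos (by exact_mod_cast (by omega : 1 < m))
      rw [← Finset.sum_mul, ← Finset.sum_div, sum_log hmm.1]
      push_cast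
      field_simp
  rw [e1, sum_prime (w := w) (y := y) (c := d * m₁)
    (fun m p => Real.log p / (m * Real.log m) * T (d * m₁) (d * m)), abs_mul,
    abs_of_pos (by positivity : 0 < 1 / (d : ℝ) * (1 / (m₁ : ℝ)))]
  have e2 : |∑ n ∈ (PP w y).divisors.filter (fun n => d * m₁ * n ∣ PP w y),
      ∑ p ∈ ((Ioc w y).filter Nat.Prime).filter (fun p => d * m₁ * n * p ∣ PP w y),
        Real.log p / (((n * p : ℕ) : ℝ) * Real.log ((n * p : ℕ) : ℝ)) *
          T (d * m₁) (d * (n * p))| ≤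
      ∑ n ∈ (PP w y).divisors, 1 / (n : ℝ) *
      (G m₁ n + E + M / Real.log w * (RR w y d + RR w y m₁ + RR w y n)) := by
    refine (Finset.abs_sum_le_sum_abs _ _).trans ?_
    refine (Finset.sum_le_sum fun n hn => ?_).trans
      (Finset.sum_le_sum_of_subset_of_nonneg (Finset.filter_subset _ _) fun n _ _ =>
        mul_nonneg (by positivity) (hB n))
    rw [mem_filter, mD] at hn
    have nR : (0 : ℝ) < n := by exact_mod_cast D_pos hn.1
    have h1 := inner_bdT h hw hn.2 hm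
    have h2 : ∑ p ∈ ((Ioc w y).filter Nat.Prime).filter (fun p => d * m₁ * n * p ∣ PP w y),
        Real.log p / (((n * p : ℕ) : ℝ) * Real.log ((n * p : ℕ) : ℝ)) *
          T (d * m₁) (d * (n * p)) =
        1 / (n : ℝ) * ∑ p ∈ ((Ioc w y).filter Nat.Prime).filter (fun p => d * m₁ * n * p ∣ PP w y),
        Real.log p / (p * Real.log ((n * p : ℕ) : ℝ)) * T (d * m₁) (d * (n * p)) := by
      rw [Finset.mul_sum]
      refine Finset.sum_congr rfl fun p hp => ?_
      rw [mem_filter, mem_filter] at hp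
      have pR : (0 : ℝ) < p := by exact_mod_cast hp.1.2.pos
      have e3 : ((n * p : ℕ) : ℝ) = n * p := by push_cast; rfl
      have hl0 : Real.log ((n * p : ℕ) : ℝ) ≠ 0 := by
        have : 1 < n * p := by
          have := hp.1.2.one_lt
          have := D_pos hn.1
          nlinarith
        exact (Real.log_pos (by exact_mod_cast this)).ne'
      generalize Real.log ((n * p : ℕ) : ℝ) = z at hl0 ⊢
      rw [e3]
      field_simp
    rw [h2, abs_mul, abs_of_pos (by positivity : 0 < 1 / (n : ℝ))]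
    refine mul_le_mul_of_nonneg_left (h1.trans ?_) (by positivity)
    have h3 := RR_mul w y d m₁ n
    have h4 : M / Real.log w * RR w y (d * m₁ * n) ≤
        M / Real.log w * (RR w y d + RR w y m₁ + RR w y n) :=
      mul_le_mul_of_nonneg_left h3 (by positivity)
    unfold RR at h4 ⊢
    linarith
  calc _ ≤ 1 / (d : ℝ) * (1 / (m₁ : ℝ)) * ∑ n ∈ (PP w y).divisors, 1 / (n : ℝ) *
      (G m₁ n + E + M / Real.log w * (RR w y d + RR w y m₁ + RR w y n)) :=
        mul_le_mul_of_nonneg_left e2 (by positivity)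
    _ = _ := by
      rw [Finset.mul_sum]
      refine Finset.sum_congr rfl fun n _ => ?_
      ring

/-- everything but the constants -/
lemma mainT (hw : 16 ≤ w) (hwy : w ≤ y) :
    VW w y ^ 2 * ∑ N ∈ (PP w y).divisors, (1 / (Nat.totient N : ℝ)) *
      ∑ m ∈ N.divisors, ∑ m' ∈ N.divisors, T m m' ≤
    M + ∑ m ∈ (PP w y).divisors.filter (fun m => m ≠ 1), 1 / (m : ℝ) *
        ∑ n ∈ (PP w y).divisors, 1 / (n : ℝ) * G m n +
      (VW w y)⁻¹ ^ 2 * E +
      3 * (M / Real.log w) * (VW w y)⁻¹ * ((VW w y)⁻¹ * (Real.log y / w)) := by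
  classical
  have hV := Pool.Agent.N99.QL.VW_pos w y
  have hM := h.M0
  have hE0 := h.E0
  have hlw : 1 ≤ Real.log w := one_le_log hw
  obtain ⟨κ, hκ⟩ : ∃ κ, κ = M / Real.log w := ⟨_, rfl⟩
  have hκ0 : 0 ≤ κ := by rw [hκ]; positivity
  set D := (PP w y).divisors with hD
  -- the exact identity
  have s1 : VW w y ^ 2 * ∑ N ∈ D, (1 / (Nat.totient N : ℝ)) *
      ∑ m ∈ N.divisors, ∑ m' ∈ N.divisors, T m m' =
      VW w y * ∑ d ∈ D, ∑ m₁ ∈ D, ∑ m₂ ∈ D, (if d * m₁ * m₂ ∣ PP w y then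
        T (d * m₁) (d * m₂) / ((d * m₁ * m₂ : ℕ) : ℝ) else 0) := by
    rw [hD, swap,
      ← sum_pairs (w := w) (y := y) (fun m m' l => T m m' / (l : ℝ)), Finset.mul_sum,
      Finset.mul_sum]
    refine Finset.sum_congr rfl fun m _ => ?_
    rw [Finset.mul_sum, Finset.mul_sum]
    refine Finset.sum_congr rfl fun m' _ => ?_
    field_simp
  obtain ⟨P, hP⟩ : ∃ P, P = ∑ m ∈ D.filter (fun m => m ≠ 1), 1 / (m : ℝ) *
        ∑ n ∈ D, 1 / (n : ℝ) * G m n := ⟨_, rfl⟩
  -- the rows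
  have s2 : ∀ d ∈ D, |∑ m₁ ∈ D, ∑ m₂ ∈ D, (if d * m₁ * m₂ ∣ PP w y then
        T (d * m₁) (d * m₂) / ((d * m₁ * m₂ : ℕ) : ℝ) else 0)| ≤
      (M + P) * (1 / (d : ℝ)) + ∑ m ∈ D, ∑ n ∈ D, 1 / (d : ℝ) * (1 / (m : ℝ)) * (1 / (n : ℝ)) *
        (0 + E + κ * (RR w y d + RR w y m + RR w y n)) := by
    intro d hd
    rw [hD, mD] at hd
    have hnn : ∀ m n : ℕ, 0 ≤ 1 / (d : ℝ) * (1 / (m : ℝ)) * (1 / (n : ℝ)) *
        (0 + E + κ * (RR w y d + RR w y m + RR w y n)) := by
      intro m n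
      have h2 := RR_nonneg w y d
      have h3 := RR_nonneg w y m
      have h4 := RR_nonneg w y n
      positivity
    have h1D : (1 : ℕ) ∈ D := mD.2 (one_dvd _)
    refine (Finset.abs_sum_le_sum_abs _ _).trans ?_
    rw [← Finset.add_sum_erase _ _ h1D, add_mul, add_assoc]
    refine add_le_add (row1T h hd) ?_
    have e1 : P * (1 / (d : ℝ)) = ∑ m ∈ D.erase 1, ∑ n ∈ D, 1 / (d : ℝ) * (1 / (m : ℝ)) *
        (1 / (n : ℝ)) * G m n := by
      have e2 : D.filter (fun m => m ≠ 1) = D.erase 1 := by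
        ext m
        rw [mem_filter, mem_erase, and_comm]
      rw [hP, e2, Finset.sum_mul]
      refine Finset.sum_congr rfl fun m _ => ?_
      rw [Finset.mul_sum, Finset.sum_mul]
      refine Finset.sum_congr rfl fun n _ => ?_
      ring
    have e3 : ∑ m ∈ D.erase 1, ∑ n ∈ D, 1 / (d : ℝ) * (1 / (m : ℝ)) * (1 / (n : ℝ)) *
        (0 + E + κ * (RR w y d + RR w y m + RR w y n)) ≤
        ∑ m ∈ D, ∑ n ∈ D, 1 / (d : ℝ) * (1 / (m : ℝ)) * (1 / (n : ℝ)) *
        (0 + E + κ * (RR w y d + RR w y m + RR w y n)) :=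
      Finset.sum_le_sum_of_subset_of_nonneg (Finset.erase_subset _ _) fun m _ _ =>
        Finset.sum_nonneg fun n _ => hnn m n
    refine le_trans ?_ (add_le_add_right e3 _)
    rw [e1, ← Finset.sum_add_distrib]
    refine Finset.sum_le_sum fun m hm => ?_
    rw [mem_erase, hD, mD] at hm
    have h3 := row2T h hw hd hm.2 hm.1
    rw [← hκ] at h3
    refine h3.trans (le_of_eq ?_)
    rw [← Finset.sum_add_distrib]
    refine Finset.sum_congr rfl fun n _ => ?_
    ring
  have s3 : |∑ d ∈ D, ∑ m₁ ∈ D, ∑ m₂ ∈ D, (if d * m₁ * m₂ ∣ PP w y then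
        T (d * m₁) (d * m₂) / ((d * m₁ * m₂ : ℕ) : ℝ) else 0)| ≤
      (M + P) * (∑ d ∈ D, 1 / (d : ℝ)) +
        ((∑ d ∈ D, 1 / (d : ℝ)) ^ 2 * (∑ d ∈ D, 1 / (d : ℝ) * 0) +
        (∑ d ∈ D, 1 / (d : ℝ)) ^ 3 * E +
        3 * κ * (∑ d ∈ D, 1 / (d : ℝ)) ^ 2 * ∑ d ∈ D, 1 / (d : ℝ) * RR w y d) := by
    refine (Finset.abs_sum_le_sum_abs _ _).trans ((Finset.sum_le_sum s2).trans ?_)
    rw [Finset.sum_add_distrib, ← Finset.mul_sum,
      triple D (fun d => 1 / (d : ℝ)) (fun _ => 0) (RR w y) E κ]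
  obtain ⟨V1, hV1⟩ : ∃ V1, V1 = ∑ d ∈ D, 1 / (d : ℝ) := ⟨_, rfl⟩
  obtain ⟨X, hX⟩ : ∃ X, X = ∑ d ∈ D, 1 / (d : ℝ) * RR w y d := ⟨_, rfl⟩
  have hV10 : 0 ≤ V1 := by rw [hV1]; exact Finset.sum_nonneg fun d _ => by positivity
  have hP0 : 0 ≤ P := by
    rw [hP]
    exact Finset.sum_nonneg fun m _ => mul_nonneg (by positivity)
      (Finset.sum_nonneg fun n _ => mul_nonneg (by positivity) (h.G0 _ _))
  have hX0 : 0 ≤ X := by
    rw [hX]
    exact Finset.sum_nonneg fun d _ => mul_nonneg (by positivity) (RR_nonneg _ _ _)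
  have hU : V1 ≤ (VW w y)⁻¹ := by rw [hV1]; exact sum_inv w y
  have hXb : X ≤ (VW w y)⁻¹ * (Real.log y / w) := by rw [hX]; exact RR_mean (by omega) hwy
  simp only [mul_zero, Finset.sum_const_zero, zero_add] at s3
  rw [← hV1, ← hX] at s3
  rw [s1, ← hP, ← hκ]
  have hVV : VW w y * V1 ≤ 1 := by
    calc VW w y * V1 ≤ VW w y * (VW w y)⁻¹ := mul_le_mul_of_nonneg_left hU hV.le
      _ = 1 := mul_inv_cancel₀ hV.ne'
  have hVV0 : 0 ≤ VW w y * V1 := mul_nonneg hV.le hV10
  have hUp : 0 < (VW w y)⁻¹ := inv_pos.2 hV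
  have t2 : VW w y * (V1 ^ 3 * E) ≤ (VW w y)⁻¹ ^ 2 * E := by
    calc VW w y * (V1 ^ 3 * E) = (VW w y * V1) * (V1 ^ 2 * E) := by ring
      _ ≤ 1 * ((VW w y)⁻¹ ^ 2 * E) := by gcongr
      _ = (VW w y)⁻¹ ^ 2 * E := one_mul _
  have t3 : VW w y * (3 * κ * V1 ^ 2 * X) ≤
      3 * κ * (VW w y)⁻¹ * ((VW w y)⁻¹ * (Real.log y / w)) := by
    calc VW w y * (3 * κ * V1 ^ 2 * X) = (VW w y * V1) * (3 * κ * V1 * X) := by ring
      _ ≤ 1 * (3 * κ * (VW w y)⁻¹ * ((VW w y)⁻¹ * (Real.log y / w))) := by gcongr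
      _ = 3 * κ * (VW w y)⁻¹ * ((VW w y)⁻¹ * (Real.log y / w)) := one_mul _
  have t4 : (M + P) * (VW w y * V1) ≤ M + P := mul_le_of_le_one_right (by linarith) hVV
  calc VW w y * ∑ d ∈ D, ∑ m₁ ∈ D, ∑ m₂ ∈ D, (if d * m₁ * m₂ ∣ PP w y then
        T (d * m₁) (d * m₂) / ((d * m₁ * m₂ : ℕ) : ℝ) else 0)
      ≤ VW w y * ((M + P) * V1 + (V1 ^ 3 * E + 3 * κ * V1 ^ 2 * X)) :=
        mul_le_mul_of_nonneg_left ((le_abs_self _).trans s3) hV.le
    _ = (M + P) * (VW w y * V1) + VW w y * (V1 ^ 3 * E) +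
        VW w y * (3 * κ * V1 ^ 2 * X) := by ring
    _ ≤ M + P + (VW w y)⁻¹ ^ 2 * E +
        3 * κ * (VW w y)⁻¹ * ((VW w y)⁻¹ * (Real.log y / w)) := by linarith

end

end Pool.Agent.N73.QH

/-! Project QH (helper728), part SHB (helper73). Third part: the sums over the primes. -/

namespace Pool.Agent.N73.QH

open Finset MeasureTheory Pool.Agent.N728.QL Pool.Agent.N728.QG Pool.Agent.N99.QL

/-! ### Logarithms and integrals -/

lemma lmax {a b : ℝ} (ha : 0 < a) (hb : 0 < b) :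
    Real.log (max a b) = max (Real.log a) (Real.log b) := by
  rcases le_total a b with h | h
  · rw [max_eq_right h, max_eq_right (Real.log_le_log ha h)]
  · rw [max_eq_left h, max_eq_left (Real.log_le_log hb h)]

lemma lmin {a b : ℝ} (ha : 0 < a) (hb : 0 < b) :
    Real.log (min a b) = min (Real.log a) (Real.log b) := by
  rcases le_total a b with h | h
  · rw [min_eq_left h, min_eq_left (Real.log_le_log ha h)]
  · rw [min_eq_right h, min_eq_right (Real.log_le_log hb h)]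

lemma log_near {w N X : ℝ} (hw : 1 ≤ w) (hN : w ≤ N) (h1 : X - 1 ≤ N) (h2 : N ≤ X) :
    |Real.log N - Real.log X| ≤ 1 / w := by
  have hN0 : 0 < N := by linarith
  have hX0 : 0 < X := by linarith
  have h3 : Real.log N ≤ Real.log X := Real.log_le_log hN0 h2
  rw [abs_sub_comm, abs_of_nonneg (by linarith), ← Real.log_div hX0.ne' hN0.ne']
  refine (Real.log_le_sub_one_of_pos (by positivity)).trans ?_
  have h4 : X / N - 1 = (X - N) / N := by field_simp
  rw [h4]
  calc (X - N) / N ≤ 1 / N := by gcongr; linarith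
    _ ≤ 1 / w := one_div_le_one_div_of_le (by linarith) hN

/-- the window as an interval of integers -/
lemma window2 {ρ : ℝ} (hρ : 1 < ρ) (hρ2 : ρ ≤ 2) {w y j E : ℕ} (hw : 1 ≤ w) (hwy : w ≤ y)
    (hE : 1 ≤ E) : ∃ N1 N2 : ℕ, w ≤ N1 ∧ N1 ≤ N2 ∧ N2 ≤ 4 * N1 ∧
      (∀ p : ℕ, (w < p ∧ p ≤ y ∧ jw ρ (E * p) = j) ↔ (N1 < p ∧ p ≤ N2)) ∧
      |Real.log N1 - max (Real.log w) (j * Real.log ρ - Real.log E)| ≤ 1 / w ∧
      |Real.log N2 - max (max (Real.log w) (j * Real.log ρ - Real.log E))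
        (min (Real.log y) ((j * Real.log ρ - Real.log E) + Real.log ρ))| ≤ 1 / w := by
  have hρ0 : 0 < ρ := by linarith
  have hE' : (0 : ℝ) < E := by exact_mod_cast hE
  have hwR : (1 : ℝ) ≤ w := by exact_mod_cast hw
  have hwyR : (w : ℝ) ≤ y := by exact_mod_cast hwy
  obtain ⟨x1, hx1⟩ : ∃ x1 : ℝ, x1 = ρ ^ j / E := ⟨_, rfl⟩
  obtain ⟨x2, hx2⟩ : ∃ x2 : ℝ, x2 = ρ ^ (j + 1) / E := ⟨_, rfl⟩
  have x1p : 0 < x1 := by rw [hx1]; positivity
  have x2p : 0 < x2 := by rw [hx2]; positivity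
  have hx12 : x2 = ρ * x1 := by rw [hx1, hx2, pow_succ]; ring
  have c1 : 1 ≤ ⌈x1⌉₊ := Nat.one_le_ceil_iff.2 x1p
  have c2 : 1 ≤ ⌈x2⌉₊ := Nat.one_le_ceil_iff.2 x2p
  have c3 : x1 ≤ ⌈x1⌉₊ := Nat.le_ceil x1
  have c4 : x2 ≤ ⌈x2⌉₊ := Nat.le_ceil x2
  have c5 : (⌈x1⌉₊ : ℝ) < x1 + 1 := Nat.ceil_lt_add_one x1p.le
  have c6 : (⌈x2⌉₊ : ℝ) < x2 + 1 := Nat.ceil_lt_add_one x2p.le
  have c12 : ⌈x2⌉₊ ≤ 2 * ⌈x1⌉₊ := by
    rw [Nat.ceil_le]
    push_cast
    rw [hx12]
    nlinarith
  have c7 : ((⌈x1⌉₊ - 1 : ℕ) : ℝ) = (⌈x1⌉₊ : ℝ) - 1 := by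
    rw [Nat.cast_sub c1]
    norm_num
  have c8 : ((⌈x2⌉₊ - 1 : ℕ) : ℝ) = (⌈x2⌉₊ : ℝ) - 1 := by
    rw [Nat.cast_sub c2]
    norm_num
  obtain ⟨N1, hN1⟩ : ∃ N1, N1 = max w (⌈x1⌉₊ - 1) := ⟨_, rfl⟩
  obtain ⟨N2, hN2⟩ : ∃ N2, N2 = max N1 (min y (⌈x2⌉₊ - 1)) := ⟨_, rfl⟩
  have hN1R : (N1 : ℝ) = max (w : ℝ) ((⌈x1⌉₊ : ℝ) - 1) := by
    rw [hN1, Nat.cast_max, c7]
  have hN2R : (N2 : ℝ) = max (N1 : ℝ) (min (y : ℝ) ((⌈x2⌉₊ : ℝ) - 1)) := by
    rw [hN2, Nat.cast_max, Nat.cast_min, c8]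
  have hwN1 : (w : ℝ) ≤ N1 := by rw [hN1R]; exact le_max_left _ _
  have hN12 : (N1 : ℝ) ≤ N2 := by rw [hN2R]; exact le_max_left _ _
  obtain ⟨X1, hX1⟩ : ∃ X1 : ℝ, X1 = max (w : ℝ) x1 := ⟨_, rfl⟩
  obtain ⟨X2, hX2⟩ : ∃ X2 : ℝ, X2 = max X1 (min (y : ℝ) x2) := ⟨_, rfl⟩
  have l1 : Real.log x1 = j * Real.log ρ - Real.log E := by
    rw [hx1, Real.log_div (by positivity) hE'.ne', Real.log_pow]
  have l2 : Real.log x2 = (j * Real.log ρ - Real.log E) + Real.log ρ := by
    rw [hx2, Real.log_div (by positivity) hE'.ne', Real.log_pow]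
    push_cast
    ring
  have X1p : 0 < X1 := by rw [hX1]; exact lt_max_of_lt_right x1p
  have L1 : Real.log X1 = max (Real.log w) (j * Real.log ρ - Real.log E) := by
    rw [hX1, lmax (by linarith) x1p, l1]
  have L2 : Real.log X2 = max (max (Real.log w) (j * Real.log ρ - Real.log E))
        (min (Real.log y) ((j * Real.log ρ - Real.log E) + Real.log ρ)) := by
    rw [hX2, lmax X1p (lt_min (by linarith) x2p), L1, lmin (by linarith) x2p, l2]
  refine ⟨N1, N2, by omega, by omega, by omega, ?_, ?_, ?_⟩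
  · intro p
    rcases Nat.eq_zero_or_pos p with hp | hp
    · subst hp
      constructor
      · rintro ⟨h1, -⟩; omega
      · rintro ⟨h1, -⟩; omega
    · have hEp : 1 ≤ E * p := Nat.mul_pos hE hp
      have e1 : jw ρ (E * p) = j ↔ ⌈x1⌉₊ ≤ p ∧ p < ⌈x2⌉₊ := by
        rw [jw_iff hρ hEp, Nat.ceil_le, Nat.lt_ceil, hx1, hx2, div_le_iff₀ hE',
          lt_div_iff₀ hE']
        push_cast
        rw [mul_comm (p : ℝ)]
      rw [e1]
      omega
  · rw [← L1]
    refine log_near hwR hwN1 ?_ ?_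
    · rw [hN1R, hX1]
      rcases le_total (w : ℝ) x1 with h | h
      · rw [max_eq_right h]
        refine le_trans ?_ (le_max_right _ _)
        linarith
      · rw [max_eq_left h]
        refine le_trans ?_ (le_max_left _ _)
        linarith
    · rw [hN1R, hX1]
      refine max_le (le_max_left _ _) (le_trans ?_ (le_max_right _ _))
      linarith
  · have hX1N : X1 - 1 ≤ N1 := by
      rw [hN1R, hX1]
      rcases le_total (w : ℝ) x1 with h | h
      · rw [max_eq_right h]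
        refine le_trans ?_ (le_max_right _ _)
        linarith
      · rw [max_eq_left h]
        refine le_trans ?_ (le_max_left _ _)
        linarith
    have hN1X : (N1 : ℝ) ≤ X1 := by
      rw [hN1R, hX1]
      refine max_le (le_max_left _ _) (le_trans ?_ (le_max_right _ _))
      linarith
    rw [← L2]
    refine log_near hwR (hwN1.trans hN12) ?_ ?_
    · rw [hX2]
      rcases le_total X1 (min (y : ℝ) x2) with h | h
      · rw [max_eq_right h, hN2R]
        refine le_trans ?_ (le_max_right _ _)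
        rcases le_total (y : ℝ) x2 with h' | h'
        · rw [min_eq_left h']
          refine le_min (by linarith) ?_
          linarith
        · rw [min_eq_right h']
          refine le_min (by linarith) ?_
          linarith
      · rw [max_eq_left h]
        linarith
    · rw [hN2R, hX2]
      refine max_le (hN1X.trans (le_max_left _ _)) (le_trans ?_ (le_max_right _ _))
      refine le_min (min_le_left _ _) ((min_le_right _ _).trans ?_)
      linarith

/-- change of the limits of integration -/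
lemma int_near {f : ℝ → ℝ} {l a b a' b' B ε : ℝ} (hf : ContinuousOn f (Set.Ici l))
    (hB : ∀ t, l ≤ t → |f t| ≤ B) (ha : l ≤ a) (hb : l ≤ b) (ha' : l ≤ a') (hb' : l ≤ b')
    (h1 : |a' - a| ≤ ε) (h2 : |b' - b| ≤ ε) :
    |(∫ t in a'..b', f t) - ∫ t in a..b, f t| ≤ 2 * B * ε := by
  have hB0 : 0 ≤ B := (abs_nonneg _).trans (hB l le_rfl)
  have hi : ∀ x z, l ≤ x → l ≤ z → IntervalIntegrable f volume x z := fun x z hx hz =>
    (hf.mono fun t ht => (le_min hx hz).trans ht.1).intervalIntegrable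
  have e : ∫ t in a'..b', f t = (∫ t in a'..a, f t) + (∫ t in a..b, f t) + ∫ t in b..b', f t := by
    rw [intervalIntegral.integral_add_adjacent_intervals (hi _ _ ha' ha) (hi _ _ ha hb),
      intervalIntegral.integral_add_adjacent_intervals (hi _ _ ha' hb) (hi _ _ hb hb')]
  have hk : ∀ x z, l ≤ x → l ≤ z → |∫ t in x..z, f t| ≤ B * |z - x| := fun x z hx hz => by
    rw [← Real.norm_eq_abs]
    refine intervalIntegral.norm_integral_le_of_norm_le_const fun t ht => ?_
    rw [Real.norm_eq_abs]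
    exact hB t ((le_min hx hz).trans ht.1.le)
  have k1 := hk a' a ha' ha
  have k2 := hk b b' hb hb'
  rw [abs_sub_comm] at k1
  rw [e, show (∫ t in a'..a, f t) + (∫ t in a..b, f t) + (∫ t in b..b', f t) - ∫ t in a..b, f t =
    (∫ t in a'..a, f t) + ∫ t in b..b', f t by ring]
  refine (abs_add_le _ _).trans ?_
  have k3 : B * |a' - a| ≤ B * ε := mul_le_mul_of_nonneg_left h1 hB0
  have k4 : B * |b' - b| ≤ B * ε := mul_le_mul_of_nonneg_left h2 hB0
  have k1' := hk a' a ha' ha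
  rw [abs_sub_comm a a'] at k1'
  linarith

/-- clipping -/
lemma int_clip {f : ℝ → ℝ} {u v A B : ℝ} (hAB : A ≤ B) :
    ∫ t in (max u A)..(max (max u A) (min v B)), f t =
      ∫ t in A..B, (Set.Ioc u v).indicator f t := by
  rw [intervalIntegral.integral_of_le (le_max_left _ _), intervalIntegral.integral_of_le hAB,
    setIntegral_indicator measurableSet_Ioc]
  congr 2
  ext x
  rw [Set.mem_inter_iff, Set.mem_Ioc, Set.mem_Ioc, Set.mem_Ioc]
  constructor
  · rintro ⟨h1, h2⟩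
    have h3 : x ≤ min v B := by
      rcases le_max_iff.1 h2 with h | h
      · exact absurd h1 (not_lt.2 h)
      · exact h
    exact ⟨⟨(le_max_right _ _).trans_lt h1, h3.trans (min_le_right _ _)⟩,
      (le_max_left _ _).trans_lt h1, h3.trans (min_le_left _ _)⟩
  · rintro ⟨⟨h1, h2⟩, h3, h4⟩
    exact ⟨max_lt h3 h1, le_max_of_le_right (le_min h4 h2)⟩

/-! ### The kernels -/

/-- the hypotheses on the kernel -/
structure KB (k : ℝ → ℝ) (M L1 : ℝ) : Prop where
  L0 : 0 ≤ L1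
  bd : ∀ τ, |k τ| ≤ M
  lip : ∀ τ τ', |k τ - k τ'| ≤ L1 * |τ - τ'|

namespace KB

variable {k : ℝ → ℝ} {M L1 : ℝ} (h : KB k M L1)
include h

lemma M0 : 0 ≤ M := (abs_nonneg _).trans (h.bd 0)

lemma cont : Continuous k := by
  have : LipschitzWith ⟨L1, h.L0⟩ k := LipschitzWith.of_dist_le_mul fun x y => by
    rw [Real.dist_eq, Real.dist_eq]
    exact h.lip x y
  exact this.continuous

end KB

lemma TR_bd {k : ℝ → ℝ} {M L1 : ℝ} (h : KB k M L1) (ρ : ℝ) (q α R : ℕ) (σ : ℝ) (m m' : ℕ) :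
    |TR k ρ q α R σ m m'| ≤ M := by
  unfold TR
  split_ifs
  · exact h.bd _
  · rw [abs_zero]
    exact h.M0

/-- the sum over all primes of the window -/
lemma inner_allR {k : ℝ → ℝ} {M L1 ρ : ℝ} (h : KB k M L1) (hρ : 1 < ρ)
    (hρ2 : ρ ≤ 2) {q α w y A d m₁ n R : ℕ} {C σ : ℝ} (hq : 1 ≤ q) (hqw : q ≤ w)
    (hw : 16 ≤ w) (hwy : w ≤ y) (hPS : PSw q A w C) (hN : d * m₁ * n ∣ PP w y)
    (hc1 : d * m₁ ≡ α [MOD q]) (hσ : σ = R * Real.log ρ) :
    |∑ p ∈ (Ioc w y).filter Nat.Prime, Real.log p / (p * Real.log ((n * p : ℕ) : ℝ)) *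
      TR k ρ q α R σ (d * m₁) (d * (n * p)) -
      (1 / (Nat.totient q : ℝ)) * ∫ θ in (jw ρ (d * m₁) * Real.log ρ - Real.log d)..(jw ρ (d * m₁) *
        Real.log ρ - Real.log d + Real.log ρ), (Set.Ioc (Real.log w + Real.log n - σ)
          (Real.log y + Real.log n - σ)).indicator (fun θ => k (θ - Real.log m₁) / (θ + σ)) θ| ≤
      C * (2 * M + L1) / Real.log w ^ A + 2 * M / w := by
  classical
  have hlw : 1 ≤ Real.log w := one_le_log hw
  have hlρ : 0 < Real.log ρ := Real.log_pos hρ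
  have hM0 := h.M0
  have hdm : d * m₁ ∣ PP w y := (Dvd.intro _ rfl).trans hN
  have hd : d ∣ PP w y := (Dvd.intro _ rfl).trans hdm
  have hm1 : m₁ ∣ PP w y := (Dvd.intro_left _ rfl).trans hdm
  have hn : n ∣ PP w y := (Dvd.intro_left _ rfl).trans hN
  have hdn : d * n ∣ PP w y := by
    refine Dvd.dvd.trans ?_ hN
    exact ⟨m₁, by ring⟩
  have d0 := D_pos hd
  have n0 := D_pos hn
  have m0 := D_pos hm1
  have hEq : Nat.Coprime (d * n) q := D_cop_q hdn hq hqw
  have hα : Nat.Coprime α q := by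
    have h1 := D_cop_q hdm hq hqw
    have h2 := Nat.ModEq.gcd_eq hc1
    unfold Nat.Coprime at h1 ⊢
    rw [← h2]
    exact h1
  obtain ⟨β, hβ, hβp⟩ := class_ex hq hEq hα
  obtain ⟨j, hj⟩ : ∃ j, j = jw ρ (d * m₁) := ⟨_, rfl⟩
  rw [← hj]
  obtain ⟨N1, N2, w1, w2, w3, w5, w6, w7⟩ := window2 (y := y) (j := j + R) hρ hρ2 (E := d * n)
    (by omega : 1 ≤ w) hwy (Nat.mul_pos d0 n0)
  have dR : (0 : ℝ) < d := by exact_mod_cast d0
  have nR : (0 : ℝ) < n := by exact_mod_cast n0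
  have mR : (0 : ℝ) < m₁ := by exact_mod_cast m0
  have wR : (0 : ℝ) < w := by exact_mod_cast (by omega : 0 < w)
  have n1R : (1 : ℝ) ≤ n := by exact_mod_cast n0
  have hln : 0 ≤ Real.log n := Real.log_nonneg n1R
  obtain ⟨c, hc⟩ : ∃ c, c = Real.log n - σ := ⟨_, rfl⟩
  obtain ⟨Φ, hΦ⟩ : ∃ Φ : ℝ → ℝ, Φ = fun θ => k (θ - Real.log m₁) / (θ + σ) := ⟨_, rfl⟩
  rw [← hΦ]
  obtain ⟨Ψ, hΨ⟩ : ∃ Ψ : ℝ → ℝ, Ψ = fun t => Φ (t + c) := ⟨_, rfl⟩
  have hΨe : ∀ t, Ψ t = k (t + c - Real.log m₁) / (Real.log n + t) := fun t => by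
    rw [hΨ, hΦ]
    simp only
    congr 1
    rw [hc]
    ring
  have hN1w : Real.log w ≤ Real.log N1 :=
    Real.log_le_log wR (by exact_mod_cast w1)
  have N1R : (0 : ℝ) < N1 := by exact_mod_cast (by omega : 0 < N1)
  have hlN : Real.log N1 ≤ Real.log N2 := Real.log_le_log N1R (by exact_mod_cast w2)
  -- the sum
  have e1 : ∑ p ∈ (Ioc w y).filter Nat.Prime, Real.log p / (p * Real.log ((n * p : ℕ) : ℝ)) *
      TR k ρ q α R σ (d * m₁) (d * (n * p)) =
      ∑ p ∈ (Ioc N1 N2).filter (fun p => p.Prime ∧ p ≡ β [MOD q]),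
        Real.log p / p * Ψ (Real.log p) := by
    rw [Finset.sum_filter, Finset.sum_filter]
    have e2 : ∑ p ∈ Ioc w y, (if p.Prime then Real.log p / (p * Real.log ((n * p : ℕ) : ℝ)) *
        TR k ρ q α R σ (d * m₁) (d * (n * p)) else 0) =
        ∑ p ∈ (Ioc w y).filter (fun p => jw ρ (d * n * p) = j + R),
          if p.Prime ∧ p ≡ β [MOD q] then Real.log p / p * Ψ (Real.log p) else 0 := by
      rw [Finset.sum_filter]
      refine Finset.sum_congr rfl fun p hp => ?_
      rw [mem_Ioc] at hp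
      by_cases hpp : p.Prime
      · rw [if_pos hpp]
        unfold TR
        rw [← mul_assoc d n p, ← hj]
        by_cases hj2 : jw ρ (d * n * p) = j + R
        · rw [if_pos hj2]
          by_cases hb : p ≡ β [MOD q]
          · have hcond : jw ρ (d * n * p) = j + R ∧ d * m₁ ≡ α [MOD q] ∧
                d * n * p ≡ α [MOD q] := ⟨hj2, hc1, (hβp p).2 hb⟩
            rw [if_pos hcond, if_pos ⟨hpp, hb⟩, hΨe]
            have pR : (0 : ℝ) < p := by exact_mod_cast hpp.pos
            have l1 : Real.log ((d * n * p : ℕ) : ℝ) - Real.log ((d * m₁ : ℕ) : ℝ) - σ =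
                Real.log p + c - Real.log m₁ := by
              push_cast
              rw [Real.log_mul dR.ne' mR.ne', Real.log_mul (by positivity) pR.ne',
                Real.log_mul dR.ne' nR.ne', hc]
              ring
            have l2 : Real.log ((n * p : ℕ) : ℝ) = Real.log n + Real.log p := by
              push_cast
              rw [Real.log_mul nR.ne' pR.ne']
            rw [l1, l2]
            have l3 : 0 < Real.log n + Real.log p := by
              have : 0 < Real.log p := Real.log_pos (by exact_mod_cast hpp.one_lt)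
              linarith
            field_simp
          · rw [if_neg (fun hh => hb ((hβp p).1 hh.2.2)), if_neg (fun hh => hb hh.2), mul_zero]
        · rw [if_neg hj2, if_neg (fun hh => hj2 hh.1), mul_zero]
      · rw [if_neg hpp]
        simp [hpp]
    rw [e2]
    refine Finset.sum_congr ?_ fun _ _ => rfl
    ext p
    rw [mem_filter, mem_Ioc, mem_Ioc, ← w5 p, and_assoc]
  rw [e1]
  -- PS
  have hden : ∀ s, Real.log w ≤ s → 1 ≤ Real.log n + s := fun s hs => by linarith
  have hΨb : ∀ s, Real.log w ≤ s → |Ψ s| ≤ M := fun s hs => by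
    have h1 := hden s hs
    rw [hΨe, abs_div, abs_of_pos (by linarith : 0 < Real.log n + s), div_le_iff₀ (by linarith)]
    have := h.bd (s + c - Real.log m₁)
    nlinarith
  have hps := hPS N1 N2 β w1 w2 w3 hβ Ψ M (L1 + M) (by linarith [h.L0])
    (fun s hs _ => hΨb s (by linarith)) (fun s s' hs _ hs' _ => by
      have h1 := hden s (by linarith)
      have h2 := hden s' (by linarith)
      rw [hΨe, hΨe]
      have h3 : k (s + c - Real.log m₁) / (Real.log n + s) -
            k (s' + c - Real.log m₁) / (Real.log n + s') =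
          (k (s + c - Real.log m₁) - k (s' + c - Real.log m₁)) / (Real.log n + s) +
            k (s' + c - Real.log m₁) * (s' - s) / ((Real.log n + s) * (Real.log n + s')) := by
        have h4 : Real.log n + s ≠ 0 := by linarith
        have h5 : Real.log n + s' ≠ 0 := by linarith
        field_simp
        ring
      rw [h3]
      refine (abs_add_le _ _).trans ?_
      rw [abs_div, abs_div, abs_mul, abs_of_pos (by linarith : 0 < Real.log n + s),
        abs_of_pos (by nlinarith : 0 < (Real.log n + s) * (Real.log n + s'))]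
      have h6 := h.lip (s + c - Real.log m₁) (s' + c - Real.log m₁)
      rw [show s + c - Real.log m₁ - (s' + c - Real.log m₁) = s - s' by ring] at h6
      have h7 := h.bd (s' + c - Real.log m₁)
      have h8 : |s' - s| = |s - s'| := abs_sub_comm _ _
      rw [h8]
      have h9 : |k (s + c - Real.log m₁) - k (s' + c - Real.log m₁)| / (Real.log n + s) ≤
          L1 * |s - s'| := (div_le_self (abs_nonneg _) h1).trans h6
      have h10 : |k (s' + c - Real.log m₁)| * |s - s'| / ((Real.log n + s) * (Real.log n + s')) ≤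
          M * |s - s'| := by
        refine (div_le_self (by positivity) (by nlinarith)).trans ?_
        exact mul_le_mul_of_nonneg_right h7 (abs_nonneg _)
      linarith)
  -- the limits of integration
  obtain ⟨a, ha⟩ : ∃ a, a = max (Real.log w)
      (((j + R : ℕ) : ℝ) * Real.log ρ - Real.log ((d * n : ℕ) : ℝ)) := ⟨_, rfl⟩
  obtain ⟨b, hb⟩ : ∃ b, b = max a (min (Real.log y)
      ((((j + R : ℕ) : ℝ) * Real.log ρ - Real.log ((d * n : ℕ) : ℝ)) + Real.log ρ)) := ⟨_, rfl⟩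
  rw [← ha] at w6 w7
  rw [← hb] at w7
  have haw : Real.log w ≤ a := by rw [ha]; exact le_max_left _ _
  have hab : a ≤ b := by rw [hb]; exact le_max_left _ _
  have hΨc : ContinuousOn Ψ (Set.Ici (Real.log w)) := by
    have h1 : Ψ = fun t => k (t + c - Real.log m₁) / (Real.log n + t) := funext hΨe
    rw [h1]
    refine ContinuousOn.div ?_ ?_ ?_
    · exact (h.cont.comp (by fun_prop : Continuous fun t : ℝ => t + c - Real.log m₁)).continuousOn
    · fun_prop
    · intro t ht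
      have := hden t ht
      linarith
  have hnear := int_near hΨc hΨb haw (haw.trans hab) hN1w (hN1w.trans hlN) w6 w7
  have hcv : ∫ t in a..b, Ψ t = ∫ θ in (j * Real.log ρ - Real.log d)..(j *
        Real.log ρ - Real.log d + Real.log ρ), (Set.Ioc (Real.log w + Real.log n - σ)
          (Real.log y + Real.log n - σ)).indicator Φ θ := by
    rw [← int_clip (by linarith), hΨ]
    rw [intervalIntegral.integral_comp_add_right (f := Φ) c]
    have g1 : a + c = max (Real.log w + Real.log n - σ) (j * Real.log ρ - Real.log d) := by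
      rw [ha, ← max_add_add_right]
      congr 1
      · rw [hc]; ring
      · rw [hc]
        push_cast
        rw [Real.log_mul dR.ne' nR.ne', hσ]
        ring
    have g2 : b + c = max (max (Real.log w + Real.log n - σ) (j * Real.log ρ - Real.log d))
        (min (Real.log y + Real.log n - σ) (j * Real.log ρ - Real.log d + Real.log ρ)) := by
      rw [hb, ← max_add_add_right, g1, ← min_add_add_right]
      congr 2
      · rw [hc]; ring
      · rw [hc]
        push_cast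
        rw [Real.log_mul dR.ne' nR.ne', hσ]
        ring
    rw [g1, g2]
  rw [hcv] at hnear
  have hφ : (1 : ℝ) ≤ Nat.totient q := by exact_mod_cast Nat.totient_pos.2 (by omega)
  have hφ1 : |1 / (Nat.totient q : ℝ)| ≤ 1 := by
    rw [abs_of_pos (by positivity), div_le_one (by linarith)]
    exact hφ
  obtain ⟨SS, hSS⟩ : ∃ SS, SS = ∑ p ∈ (Ioc N1 N2).filter (fun p => p.Prime ∧ p ≡ β [MOD q]),
      Real.log p / p * Ψ (Real.log p) := ⟨_, rfl⟩
  rw [← hSS] at hps ⊢
  obtain ⟨I1, hI1⟩ : ∃ I1, I1 = ∫ s in (Real.log N1)..(Real.log N2), Ψ s := ⟨_, rfl⟩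
  rw [← hI1] at hps hnear
  obtain ⟨I2, hI2⟩ : ∃ I2, I2 = ∫ θ in (j * Real.log ρ - Real.log d)..(j *
        Real.log ρ - Real.log d + Real.log ρ), (Set.Ioc (Real.log w + Real.log n - σ)
          (Real.log y + Real.log n - σ)).indicator Φ θ := ⟨_, rfl⟩
  rw [← hI2] at hnear ⊢
  have e5 : SS - 1 / (Nat.totient q : ℝ) * I2 = (SS - 1 / (Nat.totient q : ℝ) * I1) +
      1 / (Nat.totient q : ℝ) * (I1 - I2) := by ring
  rw [e5]
  refine (abs_add_le _ _).trans (add_le_add (hps.trans (le_of_eq ?_)) ?_)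
  · ring
  · rw [abs_mul]
    calc |1 / (Nat.totient q : ℝ)| * |I1 - I2| ≤ 1 * (2 * M * (1 / w)) :=
          mul_le_mul hφ1 hnear (abs_nonneg _) zero_le_one
      _ = 2 * M / w := by ring

end Pool.Agent.N73.QH

/-! Project QH (helper728), part SHB (helper73). Fourth part: comparison of the two sums over the primes. -/

namespace Pool.Agent.N73.QH

open Finset MeasureTheory Pool.Agent.N728.QL Pool.Agent.N728.QG Pool.Agent.N99.QL

open Classical in
/-- the bound for the difference of the integrals -/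
noncomputable def G0 (M σ lw ly : ℝ) (m n : ℕ) : ℝ :=
  M * ((if n ≤ m then 4 * σ / Real.log m ^ 2 else 0) +
    (if |Real.log n + lw - Real.log m| ≤ σ + 1 then 2 / Real.log m else 0) +
    (if |Real.log n + ly - Real.log m| ≤ σ + 1 then 2 / Real.log m else 0))

lemma G0_nonneg {M σ lw ly : ℝ} (hM : 0 ≤ M) (hσ : 0 ≤ σ) (m n : ℕ) : 0 ≤ G0 M σ lw ly m n := by
  unfold G0
  have h1 : 0 ≤ Real.log (m : ℝ) := Real.log_natCast_nonneg _
  refine mul_nonneg hM (add_nonneg (add_nonneg ?_ ?_) ?_)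
  · split_ifs
    · positivity
    · exact le_rfl
  · split_ifs
    · positivity
    · exact le_rfl
  · split_ifs
    · positivity
    · exact le_rfl

/-- the pointwise comparison -/
lemma cmp_pt {k : ℝ → ℝ} {M L1 : ℝ} (h : KB k M L1) {σ lw ly θ : ℝ} (hσ : 0 ≤ σ)
    {m n w : ℕ} (hm : 16 ≤ m) (hn : 1 ≤ n) (hw : 16 ≤ w) (hlw : lw = Real.log w)
    (h1 : |θ - Real.log m| ≤ Real.log 2) :
    |(Set.Ioc (lw + Real.log n - 0) (ly + Real.log n - 0)).indicator
        (fun θ => k (θ - Real.log m) / (θ + 0)) θ -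
      (Set.Ioc (lw + Real.log n - σ) (ly + Real.log n - σ)).indicator
        (fun θ => k (θ - Real.log m) / (θ + σ)) θ| ≤ G0 M σ lw ly m n := by
  have hM := h.M0
  have hl2 : Real.log 2 ≤ 1 := by
    have := Real.log_two_lt_d9
    linarith
  have hl20 : 0 < Real.log 2 := Real.log_pos (by norm_num)
  have mR : (16 : ℝ) ≤ m := by exact_mod_cast hm
  have nR : (1 : ℝ) ≤ n := by exact_mod_cast hn
  have wR : (16 : ℝ) ≤ w := by exact_mod_cast hw
  have h16 : 4 * Real.log 2 ≤ Real.log m := by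
    have h2 : Real.log 16 ≤ Real.log m := Real.log_le_log (by norm_num) mR
    have h3 : Real.log 16 = 4 * Real.log 2 := by
      rw [show (16 : ℝ) = 2 ^ 4 by norm_num, Real.log_pow]
      norm_num
    linarith
  have hlm : 0 < Real.log m := by linarith
  obtain ⟨ha, hb⟩ := abs_le.1 h1
  have hθ : Real.log m / 2 ≤ θ := by linarith
  have hθ0 : 0 < θ := by linarith
  have hk := h.bd (θ - Real.log m)
  have hG : ∀ x : ℝ, x ≤ G0 M σ lw ly m n ↔ x ≤ G0 M σ lw ly m n := fun _ => Iff.rfl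
  have hterm2 : |k (θ - Real.log m)| / θ ≤ M * (2 / Real.log m) := by
    calc |k (θ - Real.log m)| / θ ≤ M / θ := div_le_div_of_nonneg_right hk hθ0.le
      _ ≤ M / (Real.log m / 2) := div_le_div_of_nonneg_left hM (by linarith) hθ
      _ = M * (2 / Real.log m) := by field_simp
  rw [Set.indicator_apply, Set.indicator_apply]
  simp only [sub_zero, add_zero]
  unfold G0
  have p1 : 0 ≤ (if n ≤ m then 4 * σ / Real.log m ^ 2 else 0) := by
    split_ifs
    · positivity
    · exact le_rfl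
  have p2 : ∀ l : ℝ, 0 ≤ (@ite ℝ (|Real.log n + l - Real.log m| ≤ σ + 1)
      (Classical.propDecidable _) (2 / Real.log m) 0) := by
    intro l
    split_ifs
    · positivity
    · exact le_rfl
  by_cases h2 : θ ∈ Set.Ioc (lw + Real.log n) (ly + Real.log n)
  · by_cases h3 : θ ∈ Set.Ioc (lw + Real.log n - σ) (ly + Real.log n - σ)
    · rw [if_pos h2, if_pos h3]
      have e1 : k (θ - Real.log m) / θ - k (θ - Real.log m) / (θ + σ) =
          k (θ - Real.log m) * (σ / (θ * (θ + σ))) := by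
        have : θ + σ ≠ 0 := by linarith
        field_simp
        ring
      rw [e1, abs_mul, abs_of_nonneg (by positivity : 0 ≤ σ / (θ * (θ + σ)))]
      have e2 : σ / (θ * (θ + σ)) ≤ 4 * σ / Real.log m ^ 2 := by
        calc σ / (θ * (θ + σ)) ≤ σ / (Real.log m / 2 * (Real.log m / 2)) := by
              refine div_le_div_of_nonneg_left hσ (by positivity) ?_
              exact mul_le_mul hθ (by linarith) (by positivity) (by positivity)
          _ = 4 * σ / Real.log m ^ 2 := by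
              field_simp
              norm_num
      have hnm : n ≤ m := by
        have h4 : Real.log n + Real.log w < Real.log m + Real.log 2 := by
          have := h2.1
          rw [hlw] at this
          linarith
        rw [← Real.log_mul (by linarith) (by linarith), ← Real.log_mul (by linarith) (by norm_num),
          Real.log_lt_log_iff (by positivity) (by positivity)] at h4
        have h5 : (n : ℝ) ≤ m := by nlinarith
        exact_mod_cast h5
      rw [if_pos hnm]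
      refine (mul_le_mul hk e2 (by positivity) hM).trans ?_
      refine mul_le_mul_of_nonneg_left ?_ hM
      have := p2 lw
      have := p2 ly
      linarith
    · rw [if_pos h2, if_neg h3, sub_zero, abs_div, abs_of_pos hθ0]
      have hB : |Real.log n + ly - Real.log m| ≤ σ + 1 := by
        have h4 : ly + Real.log n - σ < θ := by
          by_contra h5
          exact h3 ⟨by linarith [h2.1], not_lt.1 h5⟩
        have h6 := h2.2
        rw [abs_le]
        constructor <;> linarith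
      refine hterm2.trans ?_
      rw [if_pos hB]
      refine mul_le_mul_of_nonneg_left ?_ hM
      have := p2 lw
      linarith
  · by_cases h3 : θ ∈ Set.Ioc (lw + Real.log n - σ) (ly + Real.log n - σ)
    · rw [if_neg h2, if_pos h3, zero_sub, abs_neg, abs_div, abs_of_pos (by linarith : 0 < θ + σ)]
      have hA : |Real.log n + lw - Real.log m| ≤ σ + 1 := by
        have h4 : θ ≤ lw + Real.log n := by
          by_contra h5
          exact h2 ⟨not_le.1 h5, by linarith [h3.2]⟩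
        have h6 := h3.1
        rw [abs_le]
        constructor <;> linarith
      have h7 : |k (θ - Real.log m)| / (θ + σ) ≤ |k (θ - Real.log m)| / θ :=
        div_le_div_of_nonneg_left (abs_nonneg _) hθ0 (by linarith)
      refine (h7.trans hterm2).trans ?_
      rw [if_pos hA]
      refine mul_le_mul_of_nonneg_left ?_ hM
      have := p2 ly
      linarith
    · rw [if_neg h2, if_neg h3, sub_zero, abs_zero]
      refine mul_nonneg hM ?_
      have := p2 lw
      have := p2 ly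
      linarith

/-- the comparison of the integrals -/
lemma cmp_int {k : ℝ → ℝ} {M L1 : ℝ} (h : KB k M L1) {σ lw ly Θ ρ : ℝ} (hσ : 0 ≤ σ)
    (hρ : 1 < ρ) (hρ2 : ρ ≤ 2)
    {m n w : ℕ} (hm : 16 ≤ m) (hn : 1 ≤ n) (hw : 16 ≤ w) (hlw : lw = Real.log w)
    (h1 : Θ ≤ Real.log m) (h2 : Real.log m ≤ Θ + Real.log ρ) :
    |(∫ θ in Θ..(Θ + Real.log ρ), (Set.Ioc (lw + Real.log n - 0) (ly + Real.log n - 0)).indicator
        (fun θ => k (θ - Real.log m) / (θ + 0)) θ) -
      ∫ θ in Θ..(Θ + Real.log ρ), (Set.Ioc (lw + Real.log n - σ) (ly + Real.log n - σ)).indicator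
        (fun θ => k (θ - Real.log m) / (θ + σ)) θ| ≤ G0 M σ lw ly m n := by
  have hM := h.M0
  have hl2 : Real.log 2 ≤ 1 := by
    have := Real.log_two_lt_d9
    linarith
  have hlρ : 0 < Real.log ρ := Real.log_pos hρ
  have hlρ2 : Real.log ρ ≤ Real.log 2 := Real.log_le_log (by linarith) hρ2
  have mR : (16 : ℝ) ≤ m := by exact_mod_cast hm
  have h16 : 4 * Real.log 2 ≤ Real.log m := by
    have h2 : Real.log 16 ≤ Real.log m := Real.log_le_log (by norm_num) mR
    have h3 : Real.log 16 = 4 * Real.log 2 := by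
      rw [show (16 : ℝ) = 2 ^ 4 by norm_num, Real.log_pow]
      norm_num
    linarith
  have hl20 : 0 < Real.log 2 := Real.log_pos (by norm_num)
  have hle : Θ ≤ Θ + Real.log ρ := by linarith
  have hi : ∀ (u v s : ℝ), 0 ≤ s → IntervalIntegrable ((Set.Ioc u v).indicator
      (fun θ => k (θ - Real.log m) / (θ + s))) volume Θ (Θ + Real.log ρ) := by
    intro u v s hs
    rw [intervalIntegrable_iff_integrableOn_Ioc_of_le hle]
    refine IntegrableOn.indicator ?_ measurableSet_Ioc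
    rw [← intervalIntegrable_iff_integrableOn_Ioc_of_le hle]
    refine ContinuousOn.intervalIntegrable ?_
    refine ContinuousOn.div ?_ (by fun_prop) fun t ht => ?_
    · exact (h.cont.comp (by fun_prop : Continuous fun t : ℝ => t - Real.log m)).continuousOn
    · rw [Set.uIcc_of_le hle] at ht
      linarith [ht.1]
  rw [← intervalIntegral.integral_sub (hi _ _ 0 le_rfl) (hi _ _ σ hσ), ← Real.norm_eq_abs]
  have hc : ∀ θ ∈ Set.uIoc Θ (Θ + Real.log ρ),
      ‖(Set.Ioc (lw + Real.log n - 0) (ly + Real.log n - 0)).indicator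
        (fun θ => k (θ - Real.log m) / (θ + 0)) θ -
      (Set.Ioc (lw + Real.log n - σ) (ly + Real.log n - σ)).indicator
        (fun θ => k (θ - Real.log m) / (θ + σ)) θ‖ ≤ G0 M σ lw ly m n := by
    intro θ hθ
    rw [Set.uIoc_of_le hle] at hθ
    rw [Real.norm_eq_abs]
    refine cmp_pt h hσ hm hn hw hlw ?_
    rw [abs_le]
    constructor <;> linarith [hθ.1, hθ.2]
  refine (intervalIntegral.norm_integral_le_of_norm_le_const hc).trans ?_
  rw [show Θ + Real.log ρ - Θ = Real.log ρ by ring, abs_of_pos hlρ]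
  exact mul_le_of_le_one_right (G0_nonneg hM hσ _ _) (by linarith)

/-- the kernel of the shift -/
noncomputable def TD (k : ℝ → ℝ) (ρ : ℝ) (q α R : ℕ) (σ : ℝ) (m m' : ℕ) : ℝ :=
  2 * (TR k ρ q α 0 0 m m' - TR k ρ q α R σ m m')

/-- the windows -/
lemma jw_up {ρ : ℝ} (hρ : 1 < ρ) (hρ2 : ρ ≤ 2) {w R d m : ℕ} (hw : 16 ≤ w) (hd : 1 ≤ d)
    (hm : w < m) (hR : R * Real.log ρ ≤ Real.log w / 4) : jw ρ (d * m) ≠ jw ρ d + R := by
  intro h
  obtain ⟨h1, h2⟩ := (jw_iff (j := jw ρ d) hρ hd).1 rfl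
  obtain ⟨h3, h4⟩ := (jw_iff (j := jw ρ d + R) hρ (Nat.mul_pos hd (by omega))).1 h
  have hρ0 : 0 < ρ := by linarith
  have dR : (0 : ℝ) < d := by exact_mod_cast hd
  have wR : (16 : ℝ) ≤ w := by exact_mod_cast hw
  have mR : (w : ℝ) < m := by exact_mod_cast hm
  push_cast at h4
  have h5 : (m : ℝ) < ρ ^ (R + 1) := by
    have h6 : ρ ^ (jw ρ d + R + 1) = ρ ^ jw ρ d * ρ ^ (R + 1) := by rw [← pow_add]; rfl
    have h7 : (d : ℝ) * m < d * ρ ^ (R + 1) := by
      refine h4.trans_le ?_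
      rw [h6]
      exact mul_le_mul_of_nonneg_right h1 (by positivity)
    exact lt_of_mul_lt_mul_left h7 dR.le
  have h8 : Real.log w < Real.log (ρ ^ (R + 1)) :=
    Real.log_lt_log (by linarith) (by linarith)
  rw [Real.log_pow] at h8
  push_cast at h8
  have hlρ2 : Real.log ρ ≤ Real.log 2 := Real.log_le_log (by linarith) hρ2
  have h16 : 4 * Real.log 2 ≤ Real.log w := by
    have h2 : Real.log 16 ≤ Real.log w := Real.log_le_log (by norm_num) wR
    have h3 : Real.log 16 = 4 * Real.log 2 := by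
      rw [show (16 : ℝ) = 2 ^ 4 by norm_num, Real.log_pow]
      norm_num
    linarith
  have hl20 : 0 < Real.log 2 := Real.log_pos (by norm_num)
  linarith

lemma jw_mono' {ρ : ℝ} (hρ : 1 < ρ) {d m : ℕ} (hd : 1 ≤ d) (hm : 1 ≤ m) :
    jw ρ d ≤ jw ρ (d * m) := by
  unfold jw
  refine Nat.floor_le_floor ?_
  have : 0 < Real.log ρ := Real.log_pos hρ
  refine div_le_div_of_nonneg_right ?_ this.le
  refine Real.log_le_log (by exact_mod_cast hd) ?_
  exact_mod_cast Nat.le_mul_of_pos_right d hm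

/-- the hypotheses of `mainT` -/
lemma shift_AK {k : ℝ → ℝ} {M L1 ρ : ℝ} (h : KB k M L1) (hρ : 1 < ρ)
    (hρ2 : ρ ≤ 2) {q α w y A R : ℕ} {C σ : ℝ} (hC : 0 ≤ C) (hq : 1 ≤ q) (hqw : q ≤ w)
    (hw : 16 ≤ w) (hwy : w ≤ y) (hPS : PSw q A w C) (hR : 1 ≤ R) (hσ : σ = R * Real.log ρ)
    (hσw : σ ≤ Real.log w / 4) :
    AK (TD k ρ q α R σ) w y (4 * M) (4 * (C * (2 * M + L1) / Real.log w ^ A + 2 * M / w))
      (fun m n => 2 * G0 M σ (Real.log w) (Real.log y) m n) := by
  have hM := h.M0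
  have hL := h.L0
  have hlw : 1 ≤ Real.log w := one_le_log hw
  have hlρ : 0 < Real.log ρ := Real.log_pos hρ
  have hσ0 : 0 ≤ σ := by rw [hσ]; positivity
  have hE0 : 0 ≤ C * (2 * M + L1) / Real.log w ^ A + 2 * M / w := by positivity
  refine ⟨by linarith, by linarith, fun m n => by
    have := G0_nonneg (lw := Real.log w) (ly := Real.log y) hM hσ0 m n
    linarith, ?_, ?_, ?_, ?_⟩
  · intro m m'
    unfold TD
    have h1 := TR_bd h ρ q α 0 0 m m'
    have h2 := TR_bd h ρ q α R σ m m'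
    rw [abs_mul, abs_of_pos (by norm_num : (0 : ℝ) < 2)]
    have h3 := abs_sub (TR k ρ q α 0 0 m m') (TR k ρ q α R σ m m')
    linarith
  · intro d m hd hm hm1
    have h1 := D_gt hm hm1
    have e1 : TR k ρ q α 0 0 d (d * m) = 0 := by
      unfold TR
      refine if_neg fun hh => ?_
      exact jw_ne hρ hρ2 (D_pos hd) (by omega : 2 ≤ m) (by rw [hh.1, add_zero])
    have e2 : TR k ρ q α R σ d (d * m) = 0 := by
      unfold TR
      refine if_neg fun hh => ?_
      exact jw_up hρ hρ2 hw (D_pos hd) h1 (by rw [← hσ]; exact hσw) hh.1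
    unfold TD
    rw [e1, e2, sub_zero, mul_zero]
  · intro d m hd hm hm1
    have h1 := D_gt hm hm1
    have e1 : TR k ρ q α 0 0 (d * m) d = 0 := by
      unfold TR
      refine if_neg fun hh => ?_
      exact jw_ne hρ hρ2 (D_pos hd) (by omega : 2 ≤ m) (by rw [hh.1, add_zero])
    have e2 : TR k ρ q α R σ (d * m) d = 0 := by
      unfold TR
      refine if_neg fun hh => ?_
      have h2 := jw_mono' hρ (D_pos hd) (D_pos hm)
      have h3 := hh.1
      omega
    unfold TD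
    rw [e1, e2, sub_zero, mul_zero]
  · intro d m₁ n hN hm
    have hdm : d * m₁ ∣ PP w y := (Dvd.intro _ rfl).trans hN
    have hd : d ∣ PP w y := (Dvd.intro _ rfl).trans hdm
    have hm1 : m₁ ∣ PP w y := (Dvd.intro_left _ rfl).trans hdm
    have hn : n ∣ PP w y := (Dvd.intro_left _ rfl).trans hN
    have d0 := D_pos hd
    have n0 := D_pos hn
    have m0 := D_pos hm1
    have hmw := D_gt hm1 hm
    have hG := G0_nonneg (lw := Real.log w) (ly := Real.log y) hM hσ0 m₁ n
    have e0 : ∑ p ∈ (Ioc w y).filter Nat.Prime, Real.log p / (p * Real.log ((n * p : ℕ) : ℝ)) *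
        TD k ρ q α R σ (d * m₁) (d * (n * p)) =
        2 * (∑ p ∈ (Ioc w y).filter Nat.Prime, Real.log p / (p * Real.log ((n * p : ℕ) : ℝ)) *
        TR k ρ q α 0 0 (d * m₁) (d * (n * p)) -
        ∑ p ∈ (Ioc w y).filter Nat.Prime, Real.log p / (p * Real.log ((n * p : ℕ) : ℝ)) *
        TR k ρ q α R σ (d * m₁) (d * (n * p))) := by
      rw [← Finset.sum_sub_distrib, Finset.mul_sum]
      refine Finset.sum_congr rfl fun p _ => ?_
      unfold TD
      ring
    rw [e0, abs_mul, abs_of_pos (by norm_num : (0 : ℝ) < 2)]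
    by_cases hc1 : d * m₁ ≡ α [MOD q]
    swap
    · have z : ∀ (R : ℕ) (σ : ℝ), ∑ p ∈ (Ioc w y).filter Nat.Prime,
          Real.log p / (p * Real.log ((n * p : ℕ) : ℝ)) *
          TR k ρ q α R σ (d * m₁) (d * (n * p)) = 0 := by
        intro R σ
        refine Finset.sum_eq_zero fun p _ => ?_
        unfold TR
        rw [if_neg (fun h => hc1 h.2.1), mul_zero]
      rw [z, z, sub_zero, abs_zero]
      linarith
    · have a1 := inner_allR (R := 0) (σ := 0) h hρ hρ2 hq hqw hw hwy hPS hN hc1 (by simp)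
      have a2 := inner_allR (R := R) (σ := σ) h hρ hρ2 hq hqw hw hwy hPS hN hc1 hσ
      obtain ⟨h1, h2⟩ := (jw_iff (j := jw ρ (d * m₁)) hρ (Nat.mul_pos d0 m0)).1 rfl
      have dR : (0 : ℝ) < d := by exact_mod_cast d0
      have mR : (0 : ℝ) < m₁ := by exact_mod_cast m0
      have hρ0 : 0 < ρ := by linarith
      have l1 : jw ρ (d * m₁) * Real.log ρ - Real.log d ≤ Real.log m₁ := by
        have h3 := Real.log_le_log (by positivity) h1
        rw [Real.log_pow] at h3
        push_cast at h3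
        rw [Real.log_mul dR.ne' mR.ne'] at h3
        linarith
      have l2 : Real.log m₁ ≤ jw ρ (d * m₁) * Real.log ρ - Real.log d + Real.log ρ := by
        have h3 := Real.log_le_log (by positivity) h2.le
        rw [Real.log_pow] at h3
        push_cast at h3
        rw [Real.log_mul dR.ne' mR.ne'] at h3
        linarith
      have a3 := cmp_int (ly := Real.log y) h hσ0 hρ hρ2 (by omega : 16 ≤ m₁) n0 hw rfl l1 l2
      have hφ : (1 : ℝ) ≤ Nat.totient q := by exact_mod_cast Nat.totient_pos.2 (by omega)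
      obtain ⟨J1, hJ1⟩ : ∃ J1, J1 = ∫ θ in (jw ρ (d * m₁) * Real.log ρ - Real.log d)..(jw ρ (d * m₁) *
        Real.log ρ - Real.log d + Real.log ρ), (Set.Ioc (Real.log w + Real.log n - 0)
          (Real.log y + Real.log n - 0)).indicator (fun θ => k (θ - Real.log m₁) / (θ + 0)) θ :=
        ⟨_, rfl⟩
      obtain ⟨J2, hJ2⟩ : ∃ J2, J2 = ∫ θ in (jw ρ (d * m₁) * Real.log ρ - Real.log d)..(jw ρ (d * m₁) *
        Real.log ρ - Real.log d + Real.log ρ), (Set.Ioc (Real.log w + Real.log n - σ)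
          (Real.log y + Real.log n - σ)).indicator (fun θ => k (θ - Real.log m₁) / (θ + σ)) θ :=
        ⟨_, rfl⟩
      rw [← hJ1] at a1 a3
      rw [← hJ2] at a2 a3
      have a4 : |1 / (Nat.totient q : ℝ) * J1 - 1 / (Nat.totient q : ℝ) * J2| ≤
          G0 M σ (Real.log w) (Real.log y) m₁ n := by
        rw [← mul_sub, abs_mul, abs_of_pos (by positivity)]
        refine le_trans ?_ a3
        exact mul_le_of_le_one_left (abs_nonneg _) (by rw [div_le_one (by linarith)]; exact hφ)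
      rw [abs_le] at a1 a2 a4
      have a5 : |∑ p ∈ (Ioc w y).filter Nat.Prime, Real.log p / (p * Real.log ((n * p : ℕ) : ℝ)) *
        TR k ρ q α 0 0 (d * m₁) (d * (n * p)) -
        ∑ p ∈ (Ioc w y).filter Nat.Prime, Real.log p / (p * Real.log ((n * p : ℕ) : ℝ)) *
        TR k ρ q α R σ (d * m₁) (d * (n * p))| ≤ G0 M σ (Real.log w) (Real.log y) m₁ n +
          2 * (C * (2 * M + L1) / Real.log w ^ A + 2 * M / w) := by
        rw [abs_le]
        constructor <;> linarith [a1.1, a1.2, a2.1, a2.2, a4.1, a4.2]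
      linarith

end Pool.Agent.N73.QH

/-! Project QH (helper728), part SHB (helper73): the sum over pairs of divisors for the shift. -/

namespace Pool.Agent.N73.QH

open Finset MeasureTheory Pool.Agent.N728.QL Pool.Agent.N728.QG Pool.Agent.N99.QL

lemma harm_Icc {a b : ℕ} (ha : 1 ≤ a) (hab : a ≤ b) :
    ∑ n ∈ Icc a b, 1 / (n : ℝ) ≤ 1 + Real.log b - Real.log a := by
  induction b, hab using Nat.le_induction with
  | base =>
    rw [Icc_self, Finset.sum_singleton]
    have : (1 : ℝ) ≤ a := by exact_mod_cast ha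
    have : 1 / (a : ℝ) ≤ 1 := by rw [div_le_one (by linarith)]; exact this
    linarith
  | succ b hb ih =>
    rw [Finset.sum_Icc_succ_top (by omega)]
    have hb0 : (0 : ℝ) < b := by exact_mod_cast (by omega : 0 < b)
    have h1 : 1 / ((b + 1 : ℕ) : ℝ) ≤ Real.log ((b + 1 : ℕ) : ℝ) - Real.log b := by
      rw [← Real.log_div (by positivity) hb0.ne']
      have h2 := Real.one_sub_inv_le_log_of_pos
        (show (0 : ℝ) < ((b + 1 : ℕ) : ℝ) / b by positivity)
      refine le_trans (le_of_eq ?_) h2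
      push_cast
      field_simp
      ring
    linarith

lemma harm_near {s : Finset ℕ} {x r : ℝ} (hr : 0 ≤ r) (hs : ∀ n ∈ s, 1 ≤ n ∧ |Real.log n - x| ≤ r) :
    ∑ n ∈ s, 1 / (n : ℝ) ≤ 1 + 2 * r := by
  rcases s.eq_empty_or_nonempty with h | h
  · rw [h, Finset.sum_empty]
    linarith
  · have h1 : s ⊆ Icc (s.min' h) (s.max' h) := fun n hn =>
      mem_Icc.2 ⟨s.min'_le n hn, s.le_max' n hn⟩
    have h2 := hs _ (s.min'_mem h)
    have h3 := hs _ (s.max'_mem h)
    refine (Finset.sum_le_sum_of_subset_of_nonneg h1 fun n _ _ => by positivity).trans ?_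
    refine (harm_Icc h2.1 (s.min'_le _ (s.max'_mem h))).trans ?_
    have h4 := (abs_le.1 h2.2).1
    have h5 := (abs_le.1 h3.2).2
    linarith

/-- the sum over `n` -/
lemma sum_G0 {M σ lw ly : ℝ} (hM : 0 ≤ M) (hσ : 0 ≤ σ) {m : ℕ} (hm : 16 ≤ m) {D : Finset ℕ}
    (hD : ∀ n ∈ D, 1 ≤ n) :
    ∑ n ∈ D, 1 / (n : ℝ) * (2 * G0 M σ lw ly m n) ≤ 32 * M * (1 + σ) / Real.log m := by
  classical
  have hl : 1 ≤ Real.log m := one_le_log hm
  have e1 : ∀ n : ℕ, 1 / (n : ℝ) * (2 * G0 M σ lw ly m n) =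
      2 * M * ((4 * σ / Real.log m ^ 2) * (if n ≤ m then 1 / (n : ℝ) else 0) +
        (2 / Real.log m) * (if |Real.log n + lw - Real.log m| ≤ σ + 1 then 1 / (n : ℝ) else 0) +
        (2 / Real.log m) * (if |Real.log n + ly - Real.log m| ≤ σ + 1 then 1 / (n : ℝ) else 0)) := by
    intro n
    unfold G0
    split_ifs <;> ring
  rw [Finset.sum_congr rfl fun n _ => e1 n, ← Finset.mul_sum, Finset.sum_add_distrib,
    Finset.sum_add_distrib, ← Finset.mul_sum, ← Finset.mul_sum, ← Finset.mul_sum,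
    ← Finset.sum_filter, ← Finset.sum_filter, ← Finset.sum_filter]
  have b1 : ∑ n ∈ D.filter (fun n => n ≤ m), 1 / (n : ℝ) ≤ 2 * Real.log m := by
    have h1 : D.filter (fun n => n ≤ m) ⊆ Icc 1 m := fun n hn => by
      rw [mem_filter] at hn
      exact mem_Icc.2 ⟨hD n hn.1, hn.2⟩
    refine (Finset.sum_le_sum_of_subset_of_nonneg h1 fun n _ _ => by positivity).trans ?_
    refine (harm_Icc le_rfl (by omega)).trans ?_
    rw [Nat.cast_one, Real.log_one]
    linarith
  have b2 : ∀ l : ℝ, ∑ n ∈ D.filter (fun n : ℕ => |Real.log n + l - Real.log m| ≤ σ + 1),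
      1 / (n : ℝ) ≤ 1 + 2 * (σ + 1) := by
    intro l
    refine harm_near (x := Real.log m - l) (by linarith) fun n hn => ?_
    rw [mem_filter] at hn
    refine ⟨hD n hn.1, ?_⟩
    rw [show Real.log n - (Real.log m - l) = Real.log n + l - Real.log m by ring]
    exact hn.2
  have c1 : (4 * σ / Real.log m ^ 2) * ∑ n ∈ D.filter (fun n => n ≤ m), 1 / (n : ℝ) ≤
      8 * σ / Real.log m := by
    calc _ ≤ (4 * σ / Real.log m ^ 2) * (2 * Real.log m) :=
          mul_le_mul_of_nonneg_left b1 (by positivity)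
      _ = 8 * σ / Real.log m := by field_simp; ring
  have c2 : ∀ l : ℝ, (2 / Real.log m) *
      ∑ n ∈ D.filter (fun n : ℕ => |Real.log n + l - Real.log m| ≤ σ + 1),
      1 / (n : ℝ) ≤ (2 / Real.log m) * (1 + 2 * (σ + 1)) := fun l =>
    mul_le_mul_of_nonneg_left (b2 l) (by positivity)
  have c3 : 8 * σ / Real.log m + (2 / Real.log m) * (1 + 2 * (σ + 1)) +
      (2 / Real.log m) * (1 + 2 * (σ + 1)) = (16 * σ + 12) / Real.log m := by
    field_simp
    ring
  calc _ ≤ 2 * M * (8 * σ / Real.log m + (2 / Real.log m) * (1 + 2 * (σ + 1)) +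
      (2 / Real.log m) * (1 + 2 * (σ + 1))) := by
        refine mul_le_mul_of_nonneg_left ?_ (by linarith)
        exact add_le_add (add_le_add c1 (c2 lw)) (c2 ly)
    _ = 2 * M * ((16 * σ + 12) / Real.log m) := by rw [c3]
    _ ≤ 2 * M * ((16 * (1 + σ)) / Real.log m) := by
        refine mul_le_mul_of_nonneg_left ?_ (by linarith)
        refine div_le_div_of_nonneg_right ?_ (by linarith)
        linarith
    _ = 32 * M * (1 + σ) / Real.log m := by ring

/-- SHB, without S_RGH. -/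
theorem t_SHB' (h1 : S_QBA) (h2 : S_PS) (h3 : S_MER) : S_SHB := by
  intro q K S0 hq
  obtain ⟨C1, hC1, h1⟩ := h1
  obtain ⟨C2, hC2, w0, hw0, h2⟩ := h2 q (3 * K) hq
  obtain ⟨C3, hC3, h3, -⟩ := h3
  obtain ⟨w1, hw1⟩ := log_pow_le (3 * K)
  obtain ⟨S, hS⟩ : ∃ S : ℝ, S = S0 := ⟨_, rfl⟩
  have hS0 : 0 ≤ S := by rw [hS]; exact Nat.cast_nonneg _
  have hC3' : 0 < C3 := by linarith
  refine ⟨16 * S + 128 * S * C1 + 40 * S * C2 * C3 ^ 2 + 32 * S * C3 ^ 2 + 48 * S * C3 ^ 2 + 1,
    by positivity, w0 + w1 + q + 16,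
    fun w y R hw hwy hyK L s0 ρ g α hL1 hLK hρ hρ2 hR hRw hg1 hg2 hg3 => ?_⟩
  have hlw : 1 ≤ Real.log w := one_le_log (by omega)
  have hwR : (0 : ℝ) < w := by exact_mod_cast (by omega : 0 < w)
  have hlyw : Real.log w ≤ Real.log y := Real.log_le_log hwR (by exact_mod_cast hwy)
  have hly : 1 ≤ Real.log y := hlw.trans hlyw
  have hlly : 0 ≤ Real.log (Real.log y) := Real.log_nonneg hly
  have hlρ : 0 < Real.log ρ := Real.log_pos hρ
  obtain ⟨σ, hσ⟩ : ∃ σ : ℝ, σ = R * Real.log ρ := ⟨_, rfl⟩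
  have hσ0 : 0 ≤ σ := by rw [hσ]; positivity
  rw [← hσ] at hRw ⊢
  have hG : GB g L s0 S := ⟨hS0, hL1, hg1, hg2, fun s hs => hg3 s (by rw [← hS]; exact hs)⟩
  have hk : KB (kk g) (4 * S) (2 * S * L) :=
    ⟨by have := hG.L1; positivity, hG.kk_bd, hG.kk_lip⟩
  have e0 : ∀ N, ∑ j ∈ WnR ρ N R, (1 / (Nat.totient N : ℝ)) *
      ∫ s : ℝ, (∑ m ∈ (Dv ρ N j).filter (fun m => m ≡ α [MOD q]), g (s - Real.log m) -
        ∑ m ∈ (DvR ρ N j R).filter (fun m => m ≡ α [MOD q]), g (s - (Real.log m + σ))) ^ 2 =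
      (1 / (Nat.totient N : ℝ)) * ∑ m ∈ N.divisors, ∑ m' ∈ N.divisors,
        TD (kk g) ρ q α R σ m m' := fun N => windowsR hG ρ q α R N σ
  rw [Finset.sum_congr rfl fun N _ => e0 N]
  have hAK := shift_AK (α := α) (q := q) (A := 3 * K) hk hρ hρ2 hC2.le hq (by omega)
    (by omega : 16 ≤ w) hwy (fun N1 N2 β => h2 w N1 N2 β (by omega)) hR hσ hRw
  refine (mainT hAK (by omega) hwy).trans ?_
  have hQ := h1 w y (by omega) hwy (by omega)
  have hM := (h3 w y (by omega) hwy).2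
  have hU : 0 < (VW w y)⁻¹ := inv_pos.2 (Pool.Agent.N99.QL.VW_pos w y)
  -- the sum over the pairs
  have a1 : ∑ m ∈ (PP w y).divisors.filter (fun m => m ≠ 1), 1 / (m : ℝ) *
        ∑ n ∈ (PP w y).divisors, 1 / (n : ℝ) * (2 * G0 (4 * S) σ (Real.log w) (Real.log y) m n) ≤
      128 * S * C1 * ((1 + σ) * (1 + Real.log (Real.log y))) := by
    calc _ ≤ ∑ m ∈ (PP w y).divisors.filter (fun m => m ≠ 1),
          128 * S * (1 + σ) * (1 / ((m : ℝ) * Real.log m)) := by
          refine Finset.sum_le_sum fun m hm => ?_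
          rw [mem_filter, mD] at hm
          have h4 := D_gt hm.1 hm.2
          have h5 := sum_G0 (lw := Real.log w) (ly := Real.log y) (by positivity : 0 ≤ 4 * S) hσ0
            (by omega : 16 ≤ m) (D := (PP w y).divisors) fun n hn => D_pos (mD.1 hn)
          have mR : (0 : ℝ) < m := by exact_mod_cast (by omega : 0 < m)
          have hlm : 0 < Real.log m := Real.log_pos (by exact_mod_cast (by omega : 1 < m))
          calc _ ≤ 1 / (m : ℝ) * (32 * (4 * S) * (1 + σ) / Real.log m) :=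
                mul_le_mul_of_nonneg_left h5 (by positivity)
            _ = 128 * S * (1 + σ) * (1 / ((m : ℝ) * Real.log m)) := by
                field_simp
                ring
      _ = 128 * S * (1 + σ) * ∑ m ∈ (PP w y).divisors.filter (fun m => m ≠ 1),
          1 / ((m : ℝ) * Real.log m) := by rw [Finset.mul_sum]
      _ ≤ 128 * S * (1 + σ) * (C1 * (1 + Real.log (Real.log y)) / Real.log w) :=
          mul_le_mul_of_nonneg_left hQ (by positivity)
      _ ≤ 128 * S * (1 + σ) * (C1 * (1 + Real.log (Real.log y))) :=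
          mul_le_mul_of_nonneg_left (div_le_self (by positivity) hlw) (by positivity)
      _ = 128 * S * C1 * ((1 + σ) * (1 + Real.log (Real.log y))) := by ring
  set U := (VW w y)⁻¹ with hUd
  set l := Real.log w with hl
  set z := Real.log y with hz
  have l0 : 0 < l := by linarith
  have z0 : 0 < z := by linarith
  have hUz : U ≤ C3 * z := hM.trans (mul_le_mul_of_nonneg_left (div_le_self z0.le hlw) (by linarith))
  have b1 : z ≤ l ^ K := hyK
  have b3 : l ^ (3 * K) ≤ w := hw1 w (by omega)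
  have c1 : U ≤ C3 * l ^ K := hUz.trans (mul_le_mul_of_nonneg_left b1 hC3'.le)
  have lK : 1 ≤ l ^ K := one_le_pow₀ hlw
  have a2 : U ^ 2 * (4 * (C2 * (2 * (4 * S) + 2 * S * L) / l ^ (3 * K) + 2 * (4 * S) / w)) ≤
      40 * S * C2 * C3 ^ 2 + 32 * S * C3 ^ 2 := by
    have c3 : l ^ K ≠ 0 := by positivity
    have e3 : l ^ (3 * K) = l ^ K * l ^ K * l ^ K := by ring
    have d1 : U ^ 2 * (4 * (C2 * (2 * (4 * S) + 2 * S * L) / l ^ (3 * K))) ≤
        40 * S * C2 * C3 ^ 2 := by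
      calc U ^ 2 * (4 * (C2 * (2 * (4 * S) + 2 * S * L) / l ^ (3 * K)))
          ≤ (C3 * l ^ K) ^ 2 * (4 * (C2 * (10 * S * l ^ K) / l ^ (3 * K))) := by
            have c2 : 2 * (4 * S) + 2 * S * L ≤ 10 * S * l ^ K := by nlinarith
            gcongr
        _ = 40 * S * C2 * C3 ^ 2 := by
            rw [e3]
            field_simp
            ring
    have d2 : U ^ 2 * (4 * (2 * (4 * S) / w)) ≤ 32 * S * C3 ^ 2 := by
      calc U ^ 2 * (4 * (2 * (4 * S) / w)) ≤ (C3 * l ^ K) ^ 2 * (4 * (2 * (4 * S) / l ^ (3 * K))) := by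
            gcongr
        _ = 32 * S * C3 ^ 2 / l ^ K := by
            rw [e3]
            field_simp
            ring
        _ ≤ 32 * S * C3 ^ 2 := div_le_self (by positivity) lK
    calc _ = U ^ 2 * (4 * (C2 * (2 * (4 * S) + 2 * S * L) / l ^ (3 * K))) +
        U ^ 2 * (4 * (2 * (4 * S) / w)) := by ring
      _ ≤ _ := add_le_add d1 d2
  have a3 : 3 * (4 * (4 * S) / l) * U * (U * (z / w)) ≤ 48 * S * C3 ^ 2 := by
    have b2 : 4 * (4 * S) / l ≤ 16 * S := by
      calc 4 * (4 * S) / l ≤ 4 * (4 * S) := div_le_self (by positivity) hlw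
        _ = 16 * S := by ring
    have b4 : z ^ 3 ≤ w := by
      refine le_trans ?_ b3
      rw [mul_comm, pow_mul]
      exact pow_le_pow_left₀ z0.le b1 3
    calc 3 * (4 * (4 * S) / l) * U * (U * (z / w)) ≤ 3 * (16 * S) * (C3 * z) * ((C3 * z) * (z / w)) := by
          gcongr
      _ = 48 * S * C3 ^ 2 * (z ^ 3 / w) := by ring
      _ ≤ 48 * S * C3 ^ 2 * 1 := by
          have : z ^ 3 / w ≤ 1 := by
            rw [div_le_one hwR]
            exact b4
          gcongr
      _ = 48 * S * C3 ^ 2 := mul_one _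
  obtain ⟨X, hX⟩ : ∃ X, X = (1 + σ) * (1 + Real.log z) := ⟨_, rfl⟩
  have hX1 : 1 ≤ X := by
    rw [hX]
    nlinarith
  rw [← hX] at a1
  rw [show (16 * S + 128 * S * C1 + 40 * S * C2 * C3 ^ 2 + 32 * S * C3 ^ 2 + 48 * S * C3 ^ 2 + 1) *
    (1 + σ) * (1 + Real.log z) = (16 * S + 128 * S * C1 + 40 * S * C2 * C3 ^ 2 + 32 * S * C3 ^ 2 +
      48 * S * C3 ^ 2 + 1) * X by rw [hX]; ring]
  have a4 : (0 : ℝ) ≤ 16 * S + 40 * S * C2 * C3 ^ 2 + 32 * S * C3 ^ 2 + 48 * S * C3 ^ 2 + 1 := by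
    positivity
  nlinarith

/-- SHB. The sum over pairs of divisors for the shift. -/
theorem t_SHB (h1 : S_QBA) (h2 : S_PS) (h3 : S_MER) (_h4 : S_RGH) : S_SHB := t_SHB' h1 h2 h3

end Pool.Agent.N73.QH
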